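import Pool.Agent.R299.CBU.Net

set_option autoImplicit false

namespace Pool.Agent.R299.CBU

open Set

variable {V : Type}

/-- drawable with a free port to the right of every rectangle -/
def Drw (U : Set V) (E : Set (Sym2 V)) : Prop :=
  ∃ (D : V → Rc) (K : V → Pt), Valid D U E ∧ Ports D U U K

theorem base [Finite V] (W : Set V) : Drw W (∅ : Set (Sym2 V)) := by
  obtain ⟨f, hf⟩ := exists_injective_nat V
  have hfar : ∀ u v : V, u ≠ v → (f u : ℝ) + 1 ≤ f v ∨ (f v : ℝ) + 1 ≤ f u := by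
    intro u v huv
    have h : f u ≠ f v := fun h => huv (hf h)
    rcases lt_or_gt_of_ne h with h | h
    · left; exact_mod_cast h
    · right; exact_mod_cast h
  refine ⟨fun v => ⟨0, 1, 3 * f v, 3 * f v + 1⟩, fun v => ⟨2, 3 * f v, 3 * f v + 1⟩,
    ⟨?_, ?_, ?_, ?_⟩, ⟨?_, ?_, ?_, ?_, ?_, ?_⟩⟩
  · intro v _
    exact ⟨by norm_num, by show (3 * f v : ℝ) < 3 * f v + 1; linarith⟩
  · intro u _ v _ _ h; exact absurd h (notMem_empty _)
  · intro u _ v _ huv _
    apply dj_SS
    rcases hfar u v huv with h | h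
    · right; right; left; show (3 * f u + 1 : ℝ) < 3 * f v; linarith
    · right; right; right; show (3 * f v + 1 : ℝ) < 3 * f u; linarith
  · intro e he; exact absurd he (notMem_empty _)
  · intro v _; show (1 : ℝ) < 2; norm_num
  · intro v _; show (3 * f v : ℝ) < 3 * f v + 1; linarith
  · intro v _; exact le_rfl
  · intro v _; exact le_rfl
  · intro v _ u _ huv
    apply dj_of
    rcases hfar u v huv with h | h
    · right; right; left; show (3 * f u + 1 : ℝ) ≤ 3 * f v; linarith
    · right; right; right; show (3 * f v + 1 : ℝ) ≤ 3 * f u; linarith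
  · intro v _ w _ hvw
    unfold prt
    rw [Set.disjoint_left]
    intro z h1 h2
    rw [mem_Bx] at h1 h2
    have h3 : (3 * f v : ℝ) < z.2 := h1.2.1
    have h4 : z.2 < (3 * f v + 1 : ℝ) := h1.2.2
    have h5 : (3 * f w : ℝ) < z.2 := h2.2.1
    have h6 : z.2 < (3 * f w + 1 : ℝ) := h2.2.2
    rcases hfar v w hvw with h | h <;> linarith

open Classical in
theorem attach {a x : V} {P : List V} {I : Set V} {E EU : Set (Sym2 V)} {U : Set V}
    (hN : Net (a :: (P ++ [x])) I E) (haU : a ∈ U) (hI : ∀ v ∈ I, v ∈ U → v = a)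
    (h : Drw U EU) : Drw (U ∪ I) (EU ∪ E) := by
  obtain ⟨D, K, hV, hK⟩ := h
  have haI : a ∈ I := hN.sub a (by simp)
  have hPI : ∀ v ∈ P ++ [x], v ∈ I := fun v hv => hN.sub v (List.mem_cons_of_mem _ hv)
  have hnd := List.nodup_cons.1 hN.nodup
  have hPU : ∀ v ∈ P ++ [x], v ∉ U := by
    intro v hv hvU
    have := hI v (hPI v hv) hvU
    rw [this] at hv
    exact hnd.1 hv
  set r : ℝ := (D a).r with hr
  set ρ : ℝ := (K a).ρ with hρ
  set c : ℝ := (K a).c with hc
  set e : ℝ := (K a).e with he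
  have hrρ : r < ρ := hK.r a haU
  have hce : c < e := hK.ce a haU
  have hbc : (D a).b ≤ c := hK.b a haU
  have het : e ≤ (D a).t := hK.t a haU
  have hpa : prt D K a = Bx r ρ c e := rfl
  have hfr : ∀ u ∈ U, u ≠ a → Disjoint (D u).S (Bx r ρ c e) :=
    fun u hu hne => hK.fr a haU u hu hne
  set δ : ℝ := (e - c) / 3 with hδ
  have hδ0 : 0 < δ := by rw [hδ]; linarith
  have he3 : e = c + 3 * δ := by rw [hδ]; ring
  obtain ⟨X, hrX, L, hXL, hLρ⟩ : ∃ X, r < X ∧ ∃ L, X < L ∧ L < ρ :=
    ⟨(2 * r + ρ) / 3, by linarith, (r + 2 * ρ) / 3, by linarith, by linarith⟩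
  clear_value δ
  obtain ⟨D1, σc, clo, chi, hO⟩ := chain X ρ (by linarith) x P D U EU a c (c + δ) hV haU hbc
    (by linarith) (by linarith) hrX (by
      intro u hu hne
      exact (hfr u hu hne).mono_right (Bx_mono le_rfl le_rfl le_rfl (by linarith)))
    hnd.2 hPU
  have hlclo := hO.lclo
  have hclochi := hO.clochi
  have hD1a : D1 a = D a := hO.agr a haU
  have c1 : ∀ p ∈ (a, c + δ, c + 2 * δ) :: σc, p = (a, c + δ, c + 2 * δ) ∨ p ∈ σc := by
    intro p hp; simpa using hp
  have hσc1 : ∀ p ∈ σc, p.1 ∈ P ++ [x] := by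
    intro p hp
    rw [← hO.map]
    exact List.mem_map_of_mem hp
  have hσcr : ∀ p ∈ σc, r ≤ (D1 p.1).r ∧ (D1 p.1).r ≤ X := by
    intro p hp
    obtain ⟨i1, i2, -, -⟩ := hO.ins p.1 (hσc1 p hp)
    have i3 := (hO.val.ok p.1 (Or.inr (hσc1 p hp))).1
    exact ⟨by linarith, i2⟩
  have hslot : Slot D1 (U ∪ {v | v ∈ P ++ [x]}) ((a, c + δ, c + 2 * δ) :: σc) L ρ c (c + 2 * δ) := by
    refine ⟨hLρ, ?_, ?_, ?_, ?_, ?_, ?_, ?_, ?_, ?_, ?_⟩
    · intro p hp
      rcases c1 p hp with rfl | h
      · exact Or.inl haU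
      · exact Or.inr (hσc1 p h)
    · intro p hp
      rcases c1 p hp with rfl | h
      · show c + δ < c + 2 * δ; linarith
      · exact hO.slt p h
    · intro p hp
      rcases c1 p hp with rfl | h
      · show (D1 a).b ≤ c + δ; rw [hD1a]; linarith
      · exact hO.sb p h
    · intro p hp
      rcases c1 p hp with rfl | h
      · show c + 2 * δ ≤ (D1 a).t; rw [hD1a]; linarith
      · exact hO.st p h
    · intro p hp
      rcases c1 p hp with rfl | h
      · show (D1 a).r < L; rw [hD1a]; show r < L; linarith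
      · have := (hσcr p h).2; linarith
    · intro p hp
      rcases c1 p hp with rfl | h
      · show c ≤ c + δ; linarith
      · have := hO.slo p h; linarith
    · intro p hp
      rcases c1 p hp with rfl | h
      · exact le_rfl
      · have := hO.shi p h; linarith
    · rw [List.pairwise_cons]
      refine ⟨?_, hO.srt⟩
      intro q hq
      exact (hO.shi q hq).le
    · intro p hp u hu hne
      rcases c1 p hp with rfl | h
      · show Disjoint (D1 u).S (Bx (D1 a).r ρ (c + δ) (c + 2 * δ))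
        rw [hD1a]
        rcases hu with hu | hu
        · rw [hO.agr u hu]
          exact (hfr u hu hne).mono_right (Bx_mono le_rfl le_rfl (by linarith) (by linarith))
        · obtain ⟨i1, i2, i3, i4⟩ := hO.ins u hu
          apply dj_of; right; right; left; linarith
      · exact hO.cor p h u hu hne
    · intro u hu
      rcases hu with hu | hu
      · rw [hO.agr u hu]
        by_cases hua : u = a
        · rw [hua]
          apply dj_of; left; show r < L; linarith
        · exact (hfr u hu hua).mono_right (Bx_mono (by linarith) le_rfl le_rfl (by linarith))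
      · obtain ⟨i1, i2, i3, i4⟩ := hO.ins u hu
        apply dj_of; left; linarith
  obtain ⟨D2, K2, hE⟩ := draw hN D1 _ _ _ L ρ c (c + 2 * δ) (by simp [hO.map]) hslot hO.val (by
      intro v hv hvU
      rcases hvU with h | h
      · rw [hI v hv h]; simp
      · exact List.mem_cons_of_mem _ h) subset_union_right
  set A : Set (ℝ × ℝ) := Bx r ρ c (c + 2 * δ) with hA
  have hReg : Reg D1 ((a, c + δ, c + 2 * δ) :: σc) L ρ c (c + 2 * δ) ⊆ A := by
    rintro w (hw | ⟨p, hp, hw⟩)
    · exact Bx_mono (by linarith) le_rfl le_rfl le_rfl hw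
    · unfold corr at hw
      rcases c1 p hp with rfl | h
      · rw [show D1 (a, c + δ, c + 2 * δ).1 = D a from hD1a] at hw
        exact Bx_mono le_rfl le_rfl (by show c ≤ c + δ; linarith) le_rfl hw
      · have h1 := hO.slo p h
        have h2 := hO.shi p h
        exact Bx_mono (hσcr p h).1 le_rfl (by linarith) (by linarith) hw
  have hins : ∀ u ∈ I, u ≠ a → (D2 u).S ⊆ A := by
    intro u hu hua
    by_cases hP : u ∈ P ++ [x]
    · rw [hE.agr u (Or.inr hP)]
      obtain ⟨i1, i2, i3, i4⟩ := hO.ins u hP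
      exact S_sub_Bx i1 (by linarith) i3 (by linarith)
    · refine (hE.ins u hu ?_).trans hReg
      rintro (h | h)
      · exact hua (hI u hu h)
      · exact hP h
  have hD2U : ∀ u ∈ U, D2 u = D u := by
    intro u hu
    rw [hE.agr u (Or.inl hu), hO.agr u hu]
  have hUI : U ∪ {v | v ∈ P ++ [x]} ∪ I = U ∪ I := by
    ext v
    constructor
    · rintro ((h | h) | h)
      · exact Or.inl h
      · exact Or.inr (hPI v h)
      · exact Or.inr h
    · rintro (h | h)
      · exact Or.inl (Or.inl h)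
      · exact Or.inr h
  have hEI : EU ∪ pe (a :: (P ++ [x])) ∪ E = EU ∪ E := by
    ext v
    constructor
    · rintro ((h | h) | h)
      · exact Or.inl h
      · exact Or.inr (hN.pe_sub h)
      · exact Or.inr h
    · rintro (h | h)
      · exact Or.inl (Or.inl h)
      · exact Or.inr h
  set K' : V → Pt := fun v => if v = a then ⟨ρ, c + 2 * δ, e⟩ else if v ∈ I then K2 v else K v
    with hK'
  have ka : K' a = ⟨ρ, c + 2 * δ, e⟩ := by simp [hK']
  have ki : ∀ v, v ≠ a → v ∈ I → K' v = K2 v := fun v h1 h2 => by simp [hK', h1, h2]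
  have ku : ∀ v, v ≠ a → v ∉ I → K' v = K v := fun v h1 h2 => by simp [hK', h1, h2]
  have pa : prt D2 K' a = Bx r ρ (c + 2 * δ) e := by
    unfold prt; rw [ka, hD2U a haU]
  have pi' : ∀ v, v ≠ a → v ∈ I → prt D2 K' v = prt D2 K2 v := by
    intro v h1 h2; unfold prt; rw [ki v h1 h2]
  have pu : ∀ v ∈ U, v ≠ a → v ∉ I → prt D2 K' v = prt D K v := by
    intro v hv h1 h2; unfold prt; rw [ku v h1 h2, hD2U v hv]
  have hAp : A ⊆ Bx r ρ c e := Bx_mono le_rfl le_rfl le_rfl (by linarith)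
  have hAa : Disjoint A (Bx r ρ (c + 2 * δ) e) := by
    rw [Set.disjoint_left]
    intro w h1 h2
    have h3 : w.2 < c + 2 * δ := h1.2.2
    have h4 : c + 2 * δ < w.2 := h2.2.1
    linarith
  have hpin : ∀ v ∈ I, prt D2 K2 v ⊆ A := fun v hv => (hE.pin v hv).trans hReg
  have hcl : ∀ v ∈ U ∪ I, v = a ∨ (v ≠ a ∧ v ∈ I) ∨ (v ≠ a ∧ v ∉ I ∧ v ∈ U) := by
    intro v hv
    by_cases h1 : v = a
    · exact Or.inl h1
    · by_cases h2 : v ∈ I
      · exact Or.inr (Or.inl ⟨h1, h2⟩)
      · exact Or.inr (Or.inr ⟨h1, h2, hv.resolve_right h2⟩)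
  have hP := hE.prts
  rw [hUI] at hP
  refine ⟨D2, K', ?_, ⟨?_, ?_, ?_, ?_, ?_, ?_⟩⟩
  · have := hE.val
    rwa [hUI, hEI] at this
  · intro v hv
    rcases hcl v hv with rfl | ⟨h1, h2⟩ | ⟨h1, h2, h3⟩
    · rw [ka, hD2U v haU]; exact hrρ
    · rw [ki v h1 h2]; exact hP.r v h2
    · rw [ku v h1 h2, hD2U v h3]; exact hK.r v h3
  · intro v hv
    rcases hcl v hv with rfl | ⟨h1, h2⟩ | ⟨h1, h2, h3⟩
    · rw [ka]; show c + 2 * δ < e; linarith
    · rw [ki v h1 h2]; exact hP.ce v h2
    · rw [ku v h1 h2]; exact hK.ce v h3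
  · intro v hv
    rcases hcl v hv with rfl | ⟨h1, h2⟩ | ⟨h1, h2, h3⟩
    · rw [ka, hD2U v haU]; show (D v).b ≤ c + 2 * δ; linarith
    · rw [ki v h1 h2]; exact hP.b v h2
    · rw [ku v h1 h2, hD2U v h3]; exact hK.b v h3
  · intro v hv
    rcases hcl v hv with rfl | ⟨h1, h2⟩ | ⟨h1, h2, h3⟩
    · rw [ka, hD2U v haU]; exact het
    · rw [ki v h1 h2]; exact hP.t v h2
    · rw [ku v h1 h2, hD2U v h3]; exact hK.t v h3
  · intro v hv u hu huv
    rcases hcl v hv with h0 | ⟨h1, h2⟩ | ⟨h1, h2, h3⟩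
    · rw [h0, pa]
      rw [h0] at huv
      by_cases hu2 : u ∈ I
      · exact hAa.mono_left (hins u hu2 huv)
      · have huU := hu.resolve_right hu2
        rw [hD2U u huU]
        exact (hfr u huU huv).mono_right (Bx_mono le_rfl le_rfl (by linarith) le_rfl)
    · rw [pi' v h1 h2]
      exact hP.fr v h2 u hu huv
    · rw [pu v h3 h1 h2]
      by_cases hu2 : u ∈ U
      · rw [hD2U u hu2]
        exact hK.fr v h3 u hu2 huv
      · have huI := hu.resolve_left hu2
        have hua : u ≠ a := by rintro rfl; exact hu2 haU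
        have h4 := hK.dj a haU v h3 (Ne.symm h1)
        rw [hpa] at h4
        exact h4.mono_left ((hins u huI hua).trans hAp)
  · intro v hv w hw hvw
    rcases hcl v hv with h0 | ⟨h1, h2⟩ | ⟨h1, h2, h3⟩
    · rw [h0, pa]
      rw [h0] at hvw
      rcases hcl w hw with k0 | ⟨k1, k2⟩ | ⟨k1, k2, k3⟩
      · exact absurd k0.symm hvw
      · rw [pi' w k1 k2]
        exact hAa.symm.mono_right (hpin w k2)
      · rw [pu w k3 k1 k2]
        have h4 := hK.dj a haU w k3 hvw
        rw [hpa] at h4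
        exact h4.mono_left (Bx_mono le_rfl le_rfl (by linarith) le_rfl)
    · rw [pi' v h1 h2]
      rcases hcl w hw with k0 | ⟨k1, k2⟩ | ⟨k1, k2, k3⟩
      · rw [k0, pa]
        exact hAa.mono_left (hpin v h2)
      · rw [pi' w k1 k2]
        exact hP.dj v h2 w k2 hvw
      · rw [pu w k3 k1 k2]
        have h4 := hK.dj a haU w k3 (Ne.symm k1)
        rw [hpa] at h4
        exact h4.mono_left ((hpin v h2).trans hAp)
    · rw [pu v h3 h1 h2]
      rcases hcl w hw with k0 | ⟨k1, k2⟩ | ⟨k1, k2, k3⟩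
      · rw [k0, pa]
        have h4 := hK.dj v h3 a haU h1
        rw [hpa] at h4
        exact h4.mono_right (Bx_mono le_rfl le_rfl (by linarith) le_rfl)
      · rw [pi' w k1 k2]
        have h4 := hK.dj v h3 a haU h1
        rw [hpa] at h4
        exact h4.mono_right ((hpin w k2).trans hAp)
      · rw [pu w k3 k1 k2]
        exact hK.dj v h3 w k3 hvw

end Pool.Agent.R299.CBU
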