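import Pool.Agent.R299.CBU.Geo

set_option autoImplicit false

namespace Pool.Agent.R299.CBU

open Set

variable {V : Type}

structure ChainOut (D : V → Rc) (U : Set V) (EU : Set (Sym2 V)) (s : V) (lo hi X R : ℝ)
    (ds : List V) (z : V) (D' : V → Rc) (σ : List (V × ℝ × ℝ)) (clo chi : ℝ) : Prop where
  agr : ∀ v ∈ U, D' v = D v
  val : Valid D' (U ∪ {v | v ∈ ds ++ [z]}) (EU ∪ pe (s :: (ds ++ [z])))
  ins : ∀ v ∈ ds ++ [z], (D s).r ≤ (D' v).l ∧ (D' v).r ≤ X ∧ lo < (D' v).b ∧ (D' v).t < hi
  map : σ.map Prod.fst = ds ++ [z]
  slo : ∀ p ∈ σ, chi ≤ p.2.1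
  slt : ∀ p ∈ σ, p.2.1 < p.2.2
  shi : ∀ p ∈ σ, p.2.2 < hi
  sb : ∀ p ∈ σ, (D' p.1).b ≤ p.2.1
  st : ∀ p ∈ σ, p.2.2 ≤ (D' p.1).t
  srt : σ.Pairwise (fun p q => q.2.2 ≤ p.2.1)
  cor : ∀ p ∈ σ, ∀ u ∈ U ∪ {v | v ∈ ds ++ [z]}, u ≠ p.1 → Disjoint (D' u).S (corr D' R p)
  lclo : lo < clo
  clochi : clo < chi
  zb : (D' z).b ≤ clo
  zt : chi ≤ (D' z).t
  zr : (D' z).r = X
  oth : ∀ v ∈ ds, (D' v).r < X

open Classical in
theorem chain (X R : ℝ) (hXR : X < R) (z : V) : ∀ (ds : List V) (D : V → Rc) (U : Set V)
    (EU : Set (Sym2 V)) (s : V) (lo hi : ℝ), Valid D U EU → s ∈ U → (D s).b ≤ lo → lo < hi →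
    hi ≤ (D s).t → (D s).r < X →
    (∀ u ∈ U, u ≠ s → Disjoint (D u).S (Bx (D s).r R lo hi)) →
    (ds ++ [z]).Nodup → (∀ v ∈ ds ++ [z], v ∉ U) →
    ∃ (D' : V → Rc) (σ : List (V × ℝ × ℝ)) (clo chi : ℝ),
      ChainOut D U EU s lo hi X R ds z D' σ clo chi := by
  intro ds
  induction ds with
  | nil =>
    intro D U EU s lo hi hV hs hb hlh ht hr hfree _ hnew
    have hzU : z ∉ U := hnew z (by simp)
    have hsz : s ≠ z := by rintro rfl; exact hzU hs
    set lo1 : ℝ := lo + (hi - lo) / 4 with hlo1
    set hi1 : ℝ := hi - (hi - lo) / 4 with hhi1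
    set mid : ℝ := (lo + hi) / 2 with hmid
    set ρ : Rc := ⟨(D s).r, X, lo1, hi1⟩ with hρ
    have hρok : ρ.Ok := ⟨hr, by show lo1 < hi1; linarith⟩
    have hsub : ρ.S ⊆ Bx (D s).r R lo hi :=
      S_sub_Bx (le_refl _) hXR (by show lo < lo1; linarith) (by show hi1 < hi; linarith)
    have hval := Valid.add (E' := {s(s, z)}) hV hzU hρok (by
        intro e he; rw [mem_singleton_iff] at he; rw [he]; exact Sym2.mem_mk_right _ _) (by
        intro e he v hv
        rw [mem_singleton_iff] at he
        rw [he, Sym2.mem_iff] at hv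
        rcases hv with rfl | rfl
        · exact mem_insert_of_mem _ hs
        · exact mem_insert _ _) (by
        intro u hu he
        rw [mem_singleton_iff, Sym2.eq_iff] at he
        have : u = s := by
          rcases he with h | h
          · exact h.1
          · exact absurd h.2.symm hsz
        rw [this]
        refine ⟨Or.inl rfl, ?_⟩
        rw [max_lt_iff, lt_min_iff, lt_min_iff]
        refine ⟨⟨?_, ?_⟩, ?_, ?_⟩
        · linarith
        · show (D s).b < hi1; linarith
        · show lo1 < (D s).t; linarith
        · exact hρok.2) (by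
        intro u hu he
        have hus : u ≠ s := by
          rintro rfl; exact he rfl
        exact (hfree u hu hus).mono_right hsub)
    have hup : ∀ u ∈ U, Function.update D z ρ u = D u := by
      intro u hu
      have : u ≠ z := by rintro rfl; exact hzU hu
      simp [this]
    have hupd : Function.update D z ρ z = ρ := by simp
    have hset : U ∪ {v | v ∈ ([] : List V) ++ [z]} = insert z U := by
      ext v; simp [or_comm]
    refine ⟨Function.update D z ρ, [(z, mid, hi1)], lo1, mid, ?_⟩
    refine ⟨hup, ?_, ?_, by simp, ?_, ?_, ?_, ?_, ?_, by simp, ?_, ?_, ?_, ?_, ?_, ?_, ?_⟩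
    · rw [hset]
      simpa [pe] using hval
    · intro v hv
      have : v = z := by simpa using hv
      rw [this, hupd]
      exact ⟨le_refl _, le_refl _, by show lo < lo1; linarith, by show hi1 < hi; linarith⟩
    · intro p hp
      rw [List.mem_singleton] at hp; rw [hp]
    · intro p hp
      rw [List.mem_singleton] at hp; rw [hp]; show mid < hi1; linarith
    · intro p hp
      rw [List.mem_singleton] at hp; rw [hp]; show hi1 < hi; linarith
    · intro p hp
      rw [List.mem_singleton] at hp; rw [hp]; show (Function.update D z ρ z).b ≤ mid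
      rw [hupd]; show lo1 ≤ mid; linarith
    · intro p hp
      rw [List.mem_singleton] at hp; rw [hp]; show hi1 ≤ (Function.update D z ρ z).t
      rw [hupd]
    · intro p hp u hu hup'
      rw [List.mem_singleton] at hp
      rw [hp] at hup' ⊢
      rw [hset] at hu
      have huU : u ∈ U := (mem_insert_iff.1 hu).resolve_left hup'
      rw [hup u huU]
      show Disjoint (D u).S (Bx (Function.update D z ρ z).r R mid hi1)
      rw [hupd]
      by_cases hus : u = s
      · rw [hus, Set.disjoint_left]
        intro w hw hw'
        rw [mem_S] at hw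
        rw [mem_Bx] at hw'
        have h1 : ρ.r = X := rfl
        linarith [hw.1.2, hw'.1.1]
      · refine (hfree u huU hus).mono_right (Bx_mono ?_ le_rfl ?_ ?_)
        · show (D s).r ≤ X; linarith
        · linarith
        · linarith
    · linarith
    · linarith
    · rw [hupd]
    · rw [hupd]; show mid ≤ hi1; linarith
    · rw [hupd]
    · intro v hv; exact absurd hv (by simp)
  | cons d ds ih =>
    intro D U EU s lo hi hV hs hb hlh ht hr hfree hnd hnew
    have hdU : d ∉ U := hnew d (by simp)
    have hsd : s ≠ d := by rintro rfl; exact hdU hs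
    have hnd' : d ∉ ds ++ [z] ∧ (ds ++ [z]).Nodup := by
      rw [List.cons_append, List.nodup_cons] at hnd
      exact hnd
    set lo1 : ℝ := lo + (hi - lo) / 4 with hlo1
    set hi1 : ℝ := hi - (hi - lo) / 4 with hhi1
    set mid : ℝ := (lo + hi) / 2 with hmid
    set a : ℝ := ((D s).r + X) / 2 with ha
    set ρ : Rc := ⟨(D s).r, a, lo1, hi1⟩ with hρ
    have hρok : ρ.Ok := ⟨by show (D s).r < a; linarith, by show lo1 < hi1; linarith⟩
    have hsub : ρ.S ⊆ Bx (D s).r R lo hi :=
      S_sub_Bx (le_refl _) (by show a < R; linarith) (by show lo < lo1; linarith)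
        (by show hi1 < hi; linarith)
    have hval := Valid.add (E' := {s(s, d)}) hV hdU hρok (by
        intro e he; rw [mem_singleton_iff] at he; rw [he]; exact Sym2.mem_mk_right _ _) (by
        intro e he v hv
        rw [mem_singleton_iff] at he
        rw [he, Sym2.mem_iff] at hv
        rcases hv with rfl | rfl
        · exact mem_insert_of_mem _ hs
        · exact mem_insert _ _) (by
        intro u hu he
        rw [mem_singleton_iff, Sym2.eq_iff] at he
        have : u = s := by
          rcases he with h | h
          · exact h.1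
          · exact absurd h.2.symm hsd
        rw [this]
        refine ⟨Or.inl rfl, ?_⟩
        rw [max_lt_iff, lt_min_iff, lt_min_iff]
        refine ⟨⟨?_, ?_⟩, ?_, ?_⟩
        · linarith
        · show (D s).b < hi1; linarith
        · show lo1 < (D s).t; linarith
        · exact hρok.2) (by
        intro u hu he
        have hus : u ≠ s := by
          rintro rfl; exact he rfl
        exact (hfree u hu hus).mono_right hsub)
    set D1 := Function.update D d ρ with hD1
    have hup : ∀ u ∈ U, D1 u = D u := by
      intro u hu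
      have : u ≠ d := by rintro rfl; exact hdU hu
      simp [hD1, this]
    have hupd : D1 d = ρ := by simp [hD1]
    obtain ⟨D', σ, clo, chi, hO⟩ := ih D1 (insert d U) (EU ∪ {s(s, d)}) d lo1 mid hval
      (mem_insert _ _) (by rw [hupd]) (by linarith) (by rw [hupd]; show mid ≤ hi1; linarith)
      (by rw [hupd]; show a < X; linarith) (by
        intro u hu hud
        have huU : u ∈ U := (mem_insert_iff.1 hu).resolve_left hud
        rw [hup u huU, hupd]
        by_cases hus : u = s
        · rw [hus, Set.disjoint_left]
          intro w hw hw'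
          rw [mem_S] at hw
          rw [mem_Bx] at hw'
          have h1 : ρ.r = a := rfl
          linarith [hw.1.2, hw'.1.1]
        · refine (hfree u huU hus).mono_right (Bx_mono ?_ le_rfl ?_ ?_)
          · show (D s).r ≤ a; linarith
          · linarith
          · linarith) hnd'.2 (by
        intro v hv hv'
        rcases mem_insert_iff.1 hv' with h | h
        · rw [h] at hv; exact hnd'.1 hv
        · exact hnew v (by rw [List.cons_append]; exact List.mem_cons_of_mem _ hv) h)
    have hset : U ∪ {v | v ∈ (d :: ds) ++ [z]} = insert d U ∪ {v | v ∈ ds ++ [z]} := by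
      ext v
      simp only [List.cons_append, List.mem_cons, mem_union, mem_insert_iff, mem_ofPred_eq]
      tauto
    have hpe : EU ∪ pe (s :: ((d :: ds) ++ [z])) = EU ∪ {s(s, d)} ∪ pe (d :: (ds ++ [z])) := by
      show EU ∪ insert s(s, d) (pe (d :: (ds ++ [z]))) = _
      rw [insert_eq, union_assoc]
    have hD'd : D' d = ρ := by rw [hO.agr d (mem_insert _ _), hupd]
    refine ⟨D', (d, mid, hi1) :: σ, clo, chi, ?_⟩
    refine ⟨?_, ?_, ?_, ?_, ?_, ?_, ?_, ?_, ?_, ?_, ?_, ?_, ?_, ?_, ?_, ?_, ?_⟩
    · intro v hv
      rw [hO.agr v (mem_insert_of_mem _ hv), hup v hv]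
    · rw [hset, hpe]; exact hO.val
    · intro v hv
      rw [List.cons_append, List.mem_cons] at hv
      rcases hv with rfl | hv
      · rw [hD'd]
        exact ⟨le_refl _, by show a ≤ X; linarith, by show lo < lo1; linarith,
          by show hi1 < hi; linarith⟩
      · obtain ⟨h1, h2, h3, h4⟩ := hO.ins v hv
        rw [hupd] at h1
        have h5 : ρ.r = a := rfl
        exact ⟨by linarith, h2, by linarith, by linarith⟩
    · rw [List.map_cons, hO.map, List.cons_append]
    · intro p hp
      rcases List.mem_cons.1 hp with rfl | hp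
      · show chi ≤ mid
        obtain ⟨h1, h2, h3, h4⟩ := hO.ins z (by simp)
        linarith [hO.zt]
      · exact hO.slo p hp
    · intro p hp
      rcases List.mem_cons.1 hp with rfl | hp
      · show mid < hi1; linarith
      · exact hO.slt p hp
    · intro p hp
      rcases List.mem_cons.1 hp with rfl | hp
      · show hi1 < hi; linarith
      · have := hO.shi p hp
        linarith
    · intro p hp
      rcases List.mem_cons.1 hp with rfl | hp
      · show (D' d).b ≤ mid
        rw [hD'd]; show lo1 ≤ mid; linarith
      · exact hO.sb p hp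
    · intro p hp
      rcases List.mem_cons.1 hp with rfl | hp
      · show hi1 ≤ (D' d).t
        rw [hD'd]
      · exact hO.st p hp
    · rw [List.pairwise_cons]
      refine ⟨?_, hO.srt⟩
      intro q hq
      exact (hO.shi q hq).le
    · intro p hp u hu hup'
      rw [hset] at hu
      rcases List.mem_cons.1 hp with rfl | hp
      · show Disjoint (D' u).S (Bx (D' d).r R mid hi1)
        rw [hD'd]
        rcases hu with hu | hu
        · have huU : u ∈ U := (mem_insert_iff.1 hu).resolve_left hup'
          rw [hO.agr u (mem_insert_of_mem _ huU), hup u huU]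
          by_cases hus : u = s
          · rw [hus, Set.disjoint_left]
            intro w hw hw'
            rw [mem_S] at hw
            rw [mem_Bx] at hw'
            have h1 : ρ.r = a := rfl
            linarith [hw.1.2, hw'.1.1]
          · refine (hfree u huU hus).mono_right (Bx_mono ?_ le_rfl ?_ ?_)
            · show (D s).r ≤ a; linarith
            · linarith
            · linarith
        · obtain ⟨h1, h2, h3, h4⟩ := hO.ins u hu
          rw [Set.disjoint_left]
          intro w hw hw'
          rw [mem_S] at hw
          rw [mem_Bx] at hw'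
          linarith [hw.2.2, hw'.2.1]
      · exact hO.cor p hp u hu hup'
    · linarith [hO.lclo]
    · exact hO.clochi
    · exact hO.zb
    · exact hO.zt
    · exact hO.zr
    · intro v hv
      rcases List.mem_cons.1 hv with rfl | hv
      · rw [hD'd]; show a < X; linarith
      · exact hO.oth v hv

end Pool.Agent.R299.CBU
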