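import Pool.Agent.R299.CBU.Chain

set_option autoImplicit false

namespace Pool.Agent.R299.CBU

open Set

variable {V : Type}

theorem dj_of {ρ : Rc} {x1 x2 y1 y2 : ℝ} (h : ρ.r < x1 ∨ x2 ≤ ρ.l ∨ ρ.t ≤ y1 ∨ y2 ≤ ρ.b) :
    Disjoint ρ.S (Bx x1 x2 y1 y2) := by
  rw [Set.disjoint_left]
  intro w hw hw'
  rw [mem_S] at hw
  rw [mem_Bx] at hw'
  obtain ⟨⟨h1, h2⟩, h3, h4⟩ := hw
  obtain ⟨⟨h5, h6⟩, h7, h8⟩ := hw'
  rcases h with h | h | h | h <;> linarith

theorem dj_SS {ρ σ : Rc} (h : ρ.r < σ.l ∨ σ.r < ρ.l ∨ ρ.t < σ.b ∨ σ.t < ρ.b) :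
    Disjoint ρ.S σ.S := by
  rw [Set.disjoint_left]
  intro w hw hw'
  rw [mem_S] at hw hw'
  obtain ⟨⟨h1, h2⟩, h3, h4⟩ := hw
  obtain ⟨⟨h5, h6⟩, h7, h8⟩ := hw'
  rcases h with h | h | h | h <;> linarith

open Classical in
theorem ear (D : V → Rc) (U : Set V) (EU : Set (Sym2 V)) (s t : V) (a0 b0 a1 b1 : ℝ)
    (mid : List (V × ℝ × ℝ)) (ds : List V) (z' y z : V) (L R B T : ℝ)
    (hS : Slot D U ((s, a0, b0) :: (mid ++ [(t, a1, b1)])) L R B T) (hV : Valid D U EU)
    (hnd : (ds ++ [z', y, z]).Nodup)
    (hnew : ∀ v ∈ ds ++ [z', y, z], v ∉ U) :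
    ∃ (D' : V → Rc) (σ1 σ2 : List (V × ℝ × ℝ)) (R1 B1 T1 L2 : ℝ),
      (∀ v ∈ U, D' v = D v) ∧
      Valid D' (U ∪ {v | v ∈ ds ++ [z', y, z]}) (EU ∪ pe (s :: ((ds ++ [z', y, z]) ++ [t]))) ∧
      σ1.map Prod.fst = s :: (mid.map Prod.fst ++ [t]) ∧
      σ2.map Prod.fst = s :: ((ds ++ [z', y, z]) ++ [t]) ∧
      Slot D' (U ∪ {v | v ∈ ds ++ [z', y, z]}) σ1 L R1 B1 T1 ∧
      Slot D' (U ∪ {v | v ∈ ds ++ [z', y, z]}) σ2 L2 R B T ∧
      Disjoint (Reg D' σ1 L R1 B1 T1) (Reg D' σ2 L2 R B T) ∧
      Reg D' σ1 L R1 B1 T1 ⊆ Reg D ((s, a0, b0) :: (mid ++ [(t, a1, b1)])) L R B T ∧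
      Reg D' σ2 L2 R B T ⊆ Reg D ((s, a0, b0) :: (mid ++ [(t, a1, b1)])) L R B T ∧
      (∀ v ∈ ds ++ [z', y, z],
        (D' v).S ⊆ Reg D ((s, a0, b0) :: (mid ++ [(t, a1, b1)])) L R B T) := by
  set σ0 : List (V × ℝ × ℝ) := (s, a0, b0) :: (mid ++ [(t, a1, b1)]) with hσ0
  have ms : ((s, a0, b0) : V × ℝ × ℝ) ∈ σ0 := by simp [hσ0]
  have mt : ((t, a1, b1) : V × ℝ × ℝ) ∈ σ0 := by simp [hσ0]
  have mm : ∀ p ∈ mid, p ∈ σ0 := by intro p hp; simp [hσ0, hp]
  have hs : s ∈ U := hS.mem _ ms
  have ht : t ∈ U := hS.mem _ mt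
  have hab0 : a0 < b0 := hS.lt _ ms
  have hab1 : a1 < b1 := hS.lt _ mt
  have hsb : (D s).b ≤ a0 := hS.lo _ ms
  have hst : b0 ≤ (D s).t := hS.hi _ ms
  have htb : (D t).b ≤ a1 := hS.lo _ mt
  have htt : b1 ≤ (D t).t := hS.hi _ mt
  have hsL : (D s).r < L := hS.rL _ ms
  have htL : (D t).r < L := hS.rL _ mt
  have hBa1 : B ≤ a1 := hS.Blo _ mt
  have hb0T : b0 ≤ T := hS.hiT _ ms
  have hLR := hS.LR
  have hsrt := List.pairwise_cons.1 hS.srt
  have hsrt2 := List.pairwise_append.1 hsrt.2
  have hb1a0 : b1 ≤ a0 := hsrt.1 (t, a1, b1) (by simp)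
  have hmhi : ∀ p ∈ mid, p.2.2 ≤ a0 := fun p hp => hsrt.1 p (by simp [hp])
  have hmlo : ∀ p ∈ mid, b1 ≤ p.2.1 := fun p hp => hsrt2.2.2 p hp (t, a1, b1) (by simp)
  have hcs : ∀ u ∈ U, u ≠ s → Disjoint (D u).S (Bx (D s).r R a0 b0) :=
    fun u hu hne => hS.cor _ ms u hu hne
  have hct : ∀ u ∈ U, u ≠ t → Disjoint (D u).S (Bx (D t).r R a1 b1) :=
    fun u hu hne => hS.cor _ mt u hu hne
  set δ : ℝ := (b0 - a0) / 3 with hδ
  set ε : ℝ := (b1 - a1) / 3 with hε
  have hδ0 : 0 < δ := by rw [hδ]; linarith
  have hε0 : 0 < ε := by rw [hε]; linarith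
  have hb0 : b0 = a0 + 3 * δ := by rw [hδ]; ring
  have hb1 : b1 = a1 + 3 * ε := by rw [hε]; ring
  obtain ⟨X, hLX, X', hXX', L2, hX'L2, hL2R⟩ :
      ∃ X, L < X ∧ ∃ X', X < X' ∧ ∃ L2, X' < L2 ∧ L2 < R := by
    refine ⟨(3 * L + R) / 4, by linarith, (2 * L + 2 * R) / 4, by linarith,
      (L + 3 * R) / 4, by linarith, by linarith⟩
  clear_value δ ε
  -- nodup facts
  have hnd1 : (ds ++ [z']).Nodup := by
    have : ds ++ [z', y, z] = (ds ++ [z']) ++ [y, z] := by simp
    rw [this] at hnd
    exact (List.nodup_append.1 hnd).1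
  have hyd : y ∉ ds ++ [z'] ∧ z ∉ ds ++ [z'] ∧ y ≠ z := by
    have : ds ++ [z', y, z] = (ds ++ [z']) ++ [y, z] := by simp
    rw [this] at hnd
    obtain ⟨-, h2, h3⟩ := List.nodup_append.1 hnd
    refine ⟨fun h => h3 y h y (by simp) rfl, fun h => h3 z h z (by simp) rfl, ?_⟩
    rintro rfl
    simp at h2
  obtain ⟨hyd, hzd, hyz⟩ := hyd
  have hyU : y ∉ U := hnew y (by simp)
  have hzU : z ∉ U := hnew z (by simp)
  have hz'U : z' ∉ U := hnew z' (by simp)
  have hyz' : y ≠ z' := by rintro rfl; exact hyd (by simp)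
  have hzz' : z ≠ z' := by rintro rfl; exact hzd (by simp)
  obtain ⟨D1, σc, clo, chi, hO⟩ := chain X R (by linarith) z' ds D U EU s (a0 + δ) (a0 + 2 * δ)
    hV hs (by linarith) (by linarith) (by linarith) (by linarith) (by
      intro u hu hne
      exact (hcs u hu hne).mono_right (Bx_mono le_rfl le_rfl (by linarith) (by linarith)))
    hnd1 (by
      intro v hv
      apply hnew v
      rw [List.mem_append] at hv ⊢
      rcases hv with hv | hv
      · exact Or.inl hv
      · right; rw [List.mem_singleton] at hv; rw [hv]; simp)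
  have hlclo := hO.lclo
  have hclochi := hO.clochi
  have hchi2 : chi < a0 + 2 * δ := by
    have h1 := hO.zt
    have h2 := (hO.ins z' (by simp)).2.2.2
    linarith
  -- place z
  set z1 : ℝ := a1 + ε + ε / 4 with hz1
  set z2 : ℝ := a1 + 2 * ε - ε / 4 with hz2
  set ρz : Rc := ⟨(D t).r, X, z1, z2⟩ with hρz
  have hρzok : ρz.Ok := ⟨by show (D t).r < X; linarith, by show z1 < z2; linarith⟩
  have hzU1 : z ∉ U ∪ {v | v ∈ ds ++ [z']} := by
    rintro (h | h)
    · exact hzU h
    · exact hzd h
  have htz : t ≠ z := by rintro rfl; exact hzU ht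
  have hval2 := Valid.add (E' := {s(t, z)}) hO.val hzU1 hρzok (by
      intro e he; rw [mem_singleton_iff] at he; rw [he]; exact Sym2.mem_mk_right _ _) (by
      intro e he v hv
      rw [mem_singleton_iff] at he
      rw [he, Sym2.mem_iff] at hv
      rcases hv with rfl | rfl
      · exact mem_insert_of_mem _ (Or.inl ht)
      · exact mem_insert _ _) (by
      intro u hu he
      rw [mem_singleton_iff, Sym2.eq_iff] at he
      have : u = t := by
        rcases he with h | h
        · exact h.1
        · exact absurd h.2.symm htz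
      rw [this, hO.agr t ht]
      refine ⟨Or.inl rfl, ?_⟩
      rw [max_lt_iff, lt_min_iff, lt_min_iff]
      refine ⟨⟨?_, ?_⟩, ?_, ?_⟩
      · linarith
      · show (D t).b < z2; linarith
      · show z1 < (D t).t; linarith
      · exact hρzok.2) (by
      intro u hu he
      have hut : u ≠ t := by
        rintro rfl; exact he rfl
      rcases hu with hu | hu
      · rw [hO.agr u hu]
        exact (hct u hu hut).mono_right (S_sub_Bx le_rfl (by show X < R; linarith)
          (by show a1 < z1; linarith) (by show z2 < b1; linarith))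
      · obtain ⟨-, -, h3, -⟩ := hO.ins u hu
        exact dj_SS (Or.inr (Or.inr (Or.inr (by show z2 < _; linarith)))))
  set D2 := Function.update D1 z ρz with hD2
  have d2z : D2 z = ρz := by simp [hD2]
  have d2o : ∀ u, u ≠ z → D2 u = D1 u := fun u hu => by simp [hD2, hu]
  -- place y
  set yt : ℝ := (clo + chi) / 2 with hyt
  set yb : ℝ := (z1 + z2) / 2 with hyb
  set ρy : Rc := ⟨X, X', yb, yt⟩ with hρy
  have hybt : yb < yt := by linarith
  have hρyok : ρy.Ok := ⟨hXX', hybt⟩
  have hyU2 : y ∉ insert z (U ∪ {v | v ∈ ds ++ [z']}) := by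
    intro h
    rcases mem_insert_iff.1 h with h | h | h
    · exact hyz h
    · exact hyU h
    · exact hyd h
  have hval3 := Valid.add (E' := {s(z', y), s(z, y)}) hval2 hyU2 hρyok (by
      intro e he
      rcases he with he | he
      · rw [he]; exact Sym2.mem_mk_right _ _
      · rw [mem_singleton_iff] at he; rw [he]; exact Sym2.mem_mk_right _ _) (by
      intro e he v hv
      rcases he with he | he
      · rw [he, Sym2.mem_iff] at hv
        rcases hv with hv | hv
        · right; right; right; rw [hv]; show z' ∈ ds ++ [z']; simp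
        · left; exact hv
      · rw [mem_singleton_iff] at he
        rw [he, Sym2.mem_iff] at hv
        rcases hv with hv | hv
        · right; left; exact hv
        · left; exact hv) (by
      intro u hu he
      have hu' : u = z' ∨ u = z := by
        rcases he with he | he
        · rcases Sym2.eq_iff.1 he with h | h
          · exact Or.inl h.1
          · exact absurd h.2 hyz'
        · rcases Sym2.eq_iff.1 (mem_singleton_iff.1 he) with h | h
          · exact Or.inr h.1
          · exact absurd h.2 hyz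
      rcases hu' with rfl | rfl
      · rw [d2o u hzz'.symm]
        refine ⟨Or.inl hO.zr, ?_⟩
        have h1 := hO.zb
        have h2 := hO.zt
        rw [max_lt_iff, lt_min_iff, lt_min_iff]
        refine ⟨⟨?_, ?_⟩, ?_, ?_⟩
        · linarith
        · show _ < yt; linarith
        · show yb < _; linarith
        · exact hρyok.2
      · rw [d2z]
        refine ⟨Or.inl rfl, ?_⟩
        rw [max_lt_iff, lt_min_iff, lt_min_iff]
        refine ⟨⟨?_, ?_⟩, ?_, ?_⟩
        · show z1 < z2; linarith
        · show z1 < yt; linarith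
        · show yb < z2; linarith
        · exact hρyok.2) (by
      intro u hu he
      have hu1 : u ≠ z' := by
        rintro rfl; exact he (Or.inl rfl)
      have hu2 : u ≠ z := by
        rintro rfl; exact he (Or.inr rfl)
      rw [d2o u hu2]
      rcases mem_insert_iff.1 hu with h | h | h
      · exact absurd h hu2
      · rw [hO.agr u h]
        exact (hS.str u h).mono_right (S_sub_Bx (by show L ≤ X; linarith)
          (by show X' < R; linarith) (by show B < yb; linarith) (by show yt < T; linarith))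
      · have hds : u ∈ ds := by
          rcases List.mem_append.1 h with h | h
          · exact h
          · exact absurd (List.mem_singleton.1 h) hu1
        exact dj_SS (Or.inl (hO.oth u hds)))
  set D3 := Function.update D2 y ρy with hD3
  have d3y : D3 y = ρy := by simp [hD3]
  have d3z : D3 z = ρz := by
    have : D3 z = D2 z := by simp [hD3, hyz.symm]
    rw [this, d2z]
  have d3o : ∀ u, u ≠ z → u ≠ y → D3 u = D1 u := by
    intro u h1 h2
    have : D3 u = D2 u := by simp [hD3, h2]
    rw [this, d2o u h1]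
  have d3U : ∀ u ∈ U, D3 u = D u := by
    intro u hu
    rw [d3o u (by rintro rfl; exact hzU hu) (by rintro rfl; exact hyU hu), hO.agr u hu]
  have d3c : ∀ u ∈ ds ++ [z'], D3 u = D1 u := by
    intro u hu
    exact d3o u (by rintro rfl; exact hzd hu) (by rintro rfl; exact hyd hu)
  have hUset : U ∪ {v | v ∈ ds ++ [z', y, z]} = insert y (insert z (U ∪ {v | v ∈ ds ++ [z']})) := by
    ext v
    simp only [mem_union, mem_insert_iff, mem_ofPred_eq, List.mem_append, List.mem_cons,
      List.not_mem_nil, or_false]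
    tauto
  have hEset : EU ∪ pe (s :: ((ds ++ [z', y, z]) ++ [t])) =
      EU ∪ pe (s :: (ds ++ [z'])) ∪ {s(t, z)} ∪ {s(z', y), s(z, y)} := by
    have h1 : s :: ((ds ++ [z', y, z]) ++ [t]) = (s :: ds) ++ z' :: [y, z, t] := by simp
    rw [h1, pe_append]
    have h2 : (s :: ds) ++ [z'] = s :: (ds ++ [z']) := by simp
    have h3 : pe (z' :: [y, z, t]) = {s(z', y), s(y, z), s(z, t)} := by
      simp [pe]
    rw [h2, h3, Sym2.eq_swap (a := y) (b := z), Sym2.eq_swap (a := z) (b := t)]
    ext e
    simp only [mem_union, mem_insert_iff, mem_singleton_iff]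
    tauto
  -- classification
  have hcl : ∀ u ∈ U ∪ {v | v ∈ ds ++ [z', y, z]}, u ∈ U ∨ u ∈ ds ++ [z'] ∨ u = z ∨ u = y := by
    intro u hu
    rw [hUset] at hu
    rcases mem_insert_iff.1 hu with h | h
    · exact Or.inr (Or.inr (Or.inr h))
    · rcases mem_insert_iff.1 h with h | h | h
      · exact Or.inr (Or.inr (Or.inl h))
      · exact Or.inl h
      · exact Or.inr (Or.inl h)
  have hUin : ∀ u ∈ U, u ∈ U ∪ {v | v ∈ ds ++ [z', y, z]} := fun u hu => Or.inl hu
  have hcin : ∀ u ∈ ds ++ [z'], u ∈ U ∪ {v | v ∈ ds ++ [z', y, z]} := by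
    intro u hu
    rw [hUset]; exact Or.inr (Or.inr (Or.inr hu))
  have hzin : z ∈ U ∪ {v | v ∈ ds ++ [z', y, z]} := by rw [hUset]; simp
  have hyin : y ∈ U ∪ {v | v ∈ ds ++ [z', y, z]} := by rw [hUset]; simp
  -- all the disjointness facts come from this
  have hdis : ∀ (x1 x2 y1 y2 : ℝ) (w : V), (∀ u ∈ U, u ≠ w → Disjoint (D u).S (Bx x1 x2 y1 y2)) →
      (X < x1 ∨ a0 + 2 * δ ≤ y1 ∨ y2 ≤ a0 + δ) →
      (z ≠ w → X < x1 ∨ z2 ≤ y1 ∨ y2 ≤ z1) →
      (y ≠ w → X' < x1 ∨ x2 ≤ X ∨ yt ≤ y1 ∨ y2 ≤ yb) →
      ∀ u ∈ U ∪ {v | v ∈ ds ++ [z', y, z]}, u ≠ w → Disjoint (D3 u).S (Bx x1 x2 y1 y2) := by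
    intro x1 x2 y1 y2 w h1 h2 h3 h4 u hu huw
    rcases hcl u hu with h | h | h | h
    · rw [d3U u h]; exact h1 u h huw
    · rw [d3c u h]
      obtain ⟨i1, i2, i3, i4⟩ := hO.ins u h
      apply dj_of
      rcases h2 with h2 | h2 | h2
      · left; linarith
      · right; right; left; linarith
      · right; right; right; linarith
    · rw [h, d3z]
      rw [h] at huw
      apply dj_of
      rcases h3 huw with h3 | h3 | h3
      · left; exact h3
      · right; right; left; exact h3
      · right; right; right; exact h3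
    · rw [h, d3y]
      rw [h] at huw
      apply dj_of
      rcases h4 huw with h4 | h4 | h4 | h4
      · left; exact h4
      · right; left; exact h4
      · right; right; left; exact h4
      · right; right; right; exact h4
  set σ1 : List (V × ℝ × ℝ) := (s, a0, a0 + δ) :: (mid ++ [(t, a1 + 2 * ε, b1)]) with hσ1
  set σ2 : List (V × ℝ × ℝ) := (s, a0 + 2 * δ, b0) ::
    (σc ++ [(y, yb, yt), (z, z1, yb), (t, a1, a1 + ε)]) with hσ2
  have c1 : ∀ p ∈ σ1, p = (s, a0, a0 + δ) ∨ p ∈ mid ∨ p = (t, a1 + 2 * ε, b1) := by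
    intro p hp
    simpa [hσ1] using hp
  have c2 : ∀ p ∈ σ2, p = (s, a0 + 2 * δ, b0) ∨ p ∈ σc ∨ p = (y, yb, yt) ∨ p = (z, z1, yb) ∨
      p = (t, a1, a1 + ε) := by
    intro p hp
    simpa [hσ2] using hp
  have hσc1 : ∀ p ∈ σc, p.1 ∈ ds ++ [z'] := by
    intro p hp
    rw [← hO.map]
    exact List.mem_map_of_mem hp
  have hσcr : ∀ p ∈ σc, (D s).r ≤ (D1 p.1).r ∧ (D1 p.1).r ≤ X := by
    intro p hp
    obtain ⟨i1, i2, -, -⟩ := hO.ins p.1 (hσc1 p hp)
    have i3 := (hO.val.ok p.1 (Or.inr (hσc1 p hp))).1
    exact ⟨by linarith, i2⟩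
  have slot1 : Slot D3 (U ∪ {v | v ∈ ds ++ [z', y, z]}) σ1 L X (a1 + 2 * ε) (a0 + δ) := by
    refine ⟨hLX, ?_, ?_, ?_, ?_, ?_, ?_, ?_, ?_, ?_, ?_⟩
    · intro p hp
      rcases c1 p hp with rfl | h | rfl
      · exact hUin _ hs
      · exact hUin _ (hS.mem p (mm p h))
      · exact hUin _ ht
    · intro p hp
      rcases c1 p hp with rfl | h | rfl
      · show a0 < a0 + δ; linarith
      · exact hS.lt p (mm p h)
      · show a1 + 2 * ε < b1; linarith
    · intro p hp
      rcases c1 p hp with rfl | h | rfl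
      · show (D3 s).b ≤ a0; rw [d3U s hs]; exact hsb
      · rw [d3U p.1 (hS.mem p (mm p h))]; exact hS.lo p (mm p h)
      · show (D3 t).b ≤ a1 + 2 * ε; rw [d3U t ht]; linarith
    · intro p hp
      rcases c1 p hp with rfl | h | rfl
      · show a0 + δ ≤ (D3 s).t; rw [d3U s hs]; linarith
      · rw [d3U p.1 (hS.mem p (mm p h))]; exact hS.hi p (mm p h)
      · show b1 ≤ (D3 t).t; rw [d3U t ht]; exact htt
    · intro p hp
      rcases c1 p hp with rfl | h | rfl
      · show (D3 s).r < L; rw [d3U s hs]; exact hsL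
      · rw [d3U p.1 (hS.mem p (mm p h))]; exact hS.rL p (mm p h)
      · show (D3 t).r < L; rw [d3U t ht]; exact htL
    · intro p hp
      rcases c1 p hp with rfl | h | rfl
      · show a1 + 2 * ε ≤ a0; linarith
      · have := hmlo p h; linarith
      · exact le_rfl
    · intro p hp
      rcases c1 p hp with rfl | h | rfl
      · exact le_rfl
      · have := hmhi p h; linarith
      · show b1 ≤ a0 + δ; linarith
    · rw [hσ1, List.pairwise_cons, List.pairwise_append]
      refine ⟨?_, hsrt2.1, by simp, ?_⟩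
      · intro q hq
        rcases List.mem_append.1 hq with h | h
        · exact hmhi q h
        · rw [List.mem_singleton] at h; rw [h]; exact hb1a0
      · intro p hp q hq
        rw [List.mem_singleton] at hq; rw [hq]; exact hmlo p hp
    · intro p hp
      rcases c1 p hp with rfl | h | rfl
      · show ∀ u ∈ _, u ≠ s → Disjoint (D3 u).S (Bx (D3 s).r X a0 (a0 + δ))
        rw [d3U s hs]
        apply hdis
        · intro u hu hne
          exact (hcs u hu hne).mono_right (Bx_mono le_rfl (by linarith) le_rfl (by linarith))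
        · right; right; linarith
        · intro _; right; left; linarith
        · intro _; right; left; exact le_rfl
      · have hpU := hS.mem p (mm p h)
        show ∀ u ∈ _, u ≠ p.1 → Disjoint (D3 u).S (Bx (D3 p.1).r X p.2.1 p.2.2)
        rw [d3U p.1 hpU]
        have h1 := hmlo p h
        have h2 := hmhi p h
        apply hdis
        · intro u hu hne
          exact (hS.cor p (mm p h) u hu hne).mono_right (Bx_mono le_rfl (by linarith) le_rfl le_rfl)
        · right; right; linarith
        · intro _; right; left; linarith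
        · intro _; right; left; exact le_rfl
      · show ∀ u ∈ _, u ≠ t → Disjoint (D3 u).S (Bx (D3 t).r X (a1 + 2 * ε) b1)
        rw [d3U t ht]
        apply hdis
        · intro u hu hne
          exact (hct u hu hne).mono_right (Bx_mono le_rfl (by linarith) (by linarith) le_rfl)
        · right; right; linarith
        · intro _; right; left; linarith
        · intro _; right; left; exact le_rfl
    · intro u hu
      rcases hcl u hu with h | h | h | h
      · rw [d3U u h]
        exact (hS.str u h).mono_right (Bx_mono le_rfl (by linarith) (by linarith) (by linarith))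
      · rw [d3c u h]
        obtain ⟨i1, i2, i3, i4⟩ := hO.ins u h
        apply dj_of; right; right; right; linarith
      · rw [h, d3z]
        apply dj_of; right; right; left; show z2 ≤ _; linarith
      · rw [h, d3y]
        apply dj_of; right; left; exact le_rfl
  have slot2 : Slot D3 (U ∪ {v | v ∈ ds ++ [z', y, z]}) σ2 L2 R B T := by
    refine ⟨hL2R, ?_, ?_, ?_, ?_, ?_, ?_, ?_, ?_, ?_, ?_⟩
    · intro p hp
      rcases c2 p hp with rfl | h | rfl | rfl | rfl
      · exact hUin _ hs
      · exact hcin _ (hσc1 p h)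
      · exact hyin
      · exact hzin
      · exact hUin _ ht
    · intro p hp
      rcases c2 p hp with rfl | h | rfl | rfl | rfl
      · show a0 + 2 * δ < b0; linarith
      · exact hO.slt p h
      · exact hybt
      · show z1 < yb; linarith
      · show a1 < a1 + ε; linarith
    · intro p hp
      rcases c2 p hp with rfl | h | rfl | rfl | rfl
      · show (D3 s).b ≤ a0 + 2 * δ; rw [d3U s hs]; linarith
      · rw [d3c p.1 (hσc1 p h)]; exact hO.sb p h
      · show (D3 y).b ≤ yb; rw [d3y]
      · show (D3 z).b ≤ z1; rw [d3z]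
      · show (D3 t).b ≤ a1; rw [d3U t ht]; exact htb
    · intro p hp
      rcases c2 p hp with rfl | h | rfl | rfl | rfl
      · show b0 ≤ (D3 s).t; rw [d3U s hs]; exact hst
      · rw [d3c p.1 (hσc1 p h)]; exact hO.st p h
      · show yt ≤ (D3 y).t; rw [d3y]
      · show yb ≤ (D3 z).t; rw [d3z]; show yb ≤ z2; linarith
      · show a1 + ε ≤ (D3 t).t; rw [d3U t ht]; linarith
    · intro p hp
      rcases c2 p hp with rfl | h | rfl | rfl | rfl
      · show (D3 s).r < L2; rw [d3U s hs]; linarith
      · rw [d3c p.1 (hσc1 p h)]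
        have := (hσcr p h).2
        linarith
      · show (D3 y).r < L2; rw [d3y]; exact hX'L2
      · show (D3 z).r < L2; rw [d3z]; show X < L2; linarith
      · show (D3 t).r < L2; rw [d3U t ht]; linarith
    · intro p hp
      rcases c2 p hp with rfl | h | rfl | rfl | rfl
      · show B ≤ a0 + 2 * δ; linarith
      · have := hO.slo p h; linarith
      · show B ≤ yb; linarith
      · show B ≤ z1; linarith
      · exact hBa1
    · intro p hp
      rcases c2 p hp with rfl | h | rfl | rfl | rfl
      · exact hb0T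
      · have := hO.shi p h; linarith
      · show yt ≤ T; linarith
      · show yb ≤ T; linarith
      · show a1 + ε ≤ T; linarith
    · rw [hσ2, List.pairwise_cons, List.pairwise_append]
      refine ⟨?_, hO.srt, ?_, ?_⟩
      · intro q hq
        show q.2.2 ≤ a0 + 2 * δ
        rcases List.mem_append.1 hq with h | h
        · exact (hO.shi q h).le
        · simp only [List.mem_cons, List.not_mem_nil, or_false] at h
          rcases h with rfl | rfl | rfl
          · show yt ≤ _; linarith
          · show yb ≤ _; linarith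
          · show a1 + ε ≤ _; linarith
      · simp only [List.pairwise_cons, List.mem_cons, List.not_mem_nil, or_false]
        refine ⟨?_, ?_, ?_⟩
        · intro q hq
          rcases hq with rfl | rfl
          · exact le_rfl
          · show a1 + ε ≤ yb; linarith
        · intro q hq
          rw [hq]; show a1 + ε ≤ z1; linarith
        · exact ⟨fun q hq => absurd hq (by simp), List.Pairwise.nil⟩
      · intro p hp q hq
        have h1 := hO.slo p hp
        simp only [List.mem_cons, List.not_mem_nil, or_false] at hq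
        rcases hq with rfl | rfl | rfl
        · show yt ≤ _; linarith
        · show yb ≤ _; linarith
        · show a1 + ε ≤ _; linarith
    · intro p hp
      rcases c2 p hp with rfl | h | rfl | rfl | rfl
      · show ∀ u ∈ _, u ≠ s → Disjoint (D3 u).S (Bx (D3 s).r R (a0 + 2 * δ) b0)
        rw [d3U s hs]
        apply hdis
        · intro u hu hne
          exact (hcs u hu hne).mono_right (Bx_mono le_rfl le_rfl (by linarith) le_rfl)
        · right; left; exact le_rfl
        · intro _; right; left; linarith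
        · intro _; right; right; left; linarith
      · intro u hu hne
        have hp1 := hσc1 p h
        show Disjoint (D3 u).S (Bx (D3 p.1).r R p.2.1 p.2.2)
        rw [d3c p.1 hp1]
        have h1 := hO.slo p h
        rcases hcl u hu with h' | h' | h' | h'
        · rw [d3U u h', ← hO.agr u h']
          exact hO.cor p h u (Or.inl h') hne
        · rw [d3c u h']
          exact hO.cor p h u (Or.inr h') hne
        · rw [h', d3z]
          apply dj_of; right; right; left; show z2 ≤ _; linarith
        · rw [h', d3y]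
          apply dj_of; right; right; left; show yt ≤ _; linarith
      · show ∀ u ∈ _, u ≠ y → Disjoint (D3 u).S (Bx (D3 y).r R yb yt)
        rw [d3y]
        show ∀ u ∈ _, u ≠ y → Disjoint (D3 u).S (Bx X' R yb yt)
        apply hdis
        · intro u hu _
          exact (hS.str u hu).mono_right (Bx_mono (by linarith) le_rfl (by linarith) (by linarith))
        · left; exact hXX'
        · intro _; left; exact hXX'
        · intro h; exact absurd rfl h
      · show ∀ u ∈ _, u ≠ z → Disjoint (D3 u).S (Bx (D3 z).r R z1 yb)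
        rw [d3z]
        show ∀ u ∈ _, u ≠ z → Disjoint (D3 u).S (Bx X R z1 yb)
        apply hdis
        · intro u hu _
          exact (hS.str u hu).mono_right (Bx_mono (by linarith) le_rfl (by linarith) (by linarith))
        · right; right; linarith
        · intro h; exact absurd rfl h
        · intro _; right; right; right; exact le_rfl
      · show ∀ u ∈ _, u ≠ t → Disjoint (D3 u).S (Bx (D3 t).r R a1 (a1 + ε))
        rw [d3U t ht]
        apply hdis
        · intro u hu hne
          exact (hct u hu hne).mono_right (Bx_mono le_rfl le_rfl le_rfl (by linarith))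
        · right; right; linarith
        · intro _; right; right; linarith
        · intro _; right; right; right; linarith
    · intro u hu
      rcases hcl u hu with h | h | h | h
      · rw [d3U u h]
        exact (hS.str u h).mono_right (Bx_mono (by linarith) le_rfl le_rfl le_rfl)
      · rw [d3c u h]
        obtain ⟨i1, i2, i3, i4⟩ := hO.ins u h
        apply dj_of; left; linarith
      · rw [h, d3z]
        apply dj_of; left; show X < L2; linarith
      · rw [h, d3y]
        apply dj_of; left; exact hX'L2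
  have reg1 : ∀ w ∈ Reg D3 σ1 L X (a1 + 2 * ε) (a0 + δ),
      w.1 < X ∧ a1 + 2 * ε < w.2 ∧ w.2 < a0 + δ := by
    rintro w (hw | ⟨p, hp, hw⟩)
    · rw [mem_Bx] at hw
      exact ⟨hw.1.2, hw.2.1, hw.2.2⟩
    · unfold corr at hw
      rw [mem_Bx] at hw
      rcases c1 p hp with rfl | h | rfl
      · obtain ⟨⟨h1, h2⟩, h3, h4⟩ := hw
        have h3' : a0 < w.2 := h3
        exact ⟨h2, by linarith, h4⟩
      · have h1 := hmlo p h
        have h2 := hmhi p h
        exact ⟨hw.1.2, by linarith [hw.2.1], by linarith [hw.2.2]⟩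
      · obtain ⟨⟨h1, h2⟩, h3, h4⟩ := hw
        have h4' : w.2 < b1 := h4
        exact ⟨h2, h3, by linarith⟩
  have reg2 : ∀ w ∈ Reg D3 σ2 L2 R B T, X ≤ w.1 ∨ a0 + δ < w.2 ∨ w.2 < a1 + 2 * ε := by
    rintro w (hw | ⟨p, hp, hw⟩)
    · rw [mem_Bx] at hw
      left; linarith [hw.1.1]
    · unfold corr at hw
      rw [mem_Bx] at hw
      rcases c2 p hp with rfl | h | rfl | rfl | rfl
      · right; left
        have : a0 + 2 * δ < w.2 := hw.2.1
        linarith
      · right; left
        have h1 := hO.slo p h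
        linarith [hw.2.1]
      · left
        have h1 : (D3 y).r ≤ w.1 := hw.1.1
        rw [d3y] at h1
        have h2 : X' ≤ w.1 := h1
        linarith
      · left
        have h1 : (D3 z).r ≤ w.1 := hw.1.1
        rw [d3z] at h1
        exact h1
      · right; right
        have : w.2 < a1 + ε := hw.2.2
        linarith
  refine ⟨D3, σ1, σ2, X, a1 + 2 * ε, a0 + δ, L2, d3U, ?_, ?_, ?_, slot1, slot2, ?_, ?_, ?_, ?_⟩
  · rw [hUset, hEset]; exact hval3
  · simp [hσ1]
  · simp [hσ2, hO.map]
  · rw [Set.disjoint_left]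
    intro w h1 h2
    obtain ⟨i1, i2, i3⟩ := reg1 w h1
    rcases reg2 w h2 with h | h | h <;> linarith
  · rintro w (hw | ⟨p, hp, hw⟩)
    · left
      exact Bx_mono le_rfl (by linarith) (by linarith) (by linarith) hw
    · right
      unfold corr at hw
      rcases c1 p hp with rfl | h | rfl
      · refine ⟨_, ms, ?_⟩
        show w ∈ Bx (D s).r R a0 b0
        rw [show (D3 (s, a0, a0 + δ).1) = D s from d3U s hs] at hw
        exact Bx_mono le_rfl (by linarith) le_rfl (by show a0 + δ ≤ b0; linarith) hw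
      · refine ⟨p, mm p h, ?_⟩
        show w ∈ Bx (D p.1).r R p.2.1 p.2.2
        rw [d3U p.1 (hS.mem p (mm p h))] at hw
        exact Bx_mono le_rfl (by linarith) le_rfl le_rfl hw
      · refine ⟨_, mt, ?_⟩
        show w ∈ Bx (D t).r R a1 b1
        rw [show (D3 (t, a1 + 2 * ε, b1).1) = D t from d3U t ht] at hw
        exact Bx_mono le_rfl (by linarith) (by show a1 ≤ a1 + 2 * ε; linarith) le_rfl hw
  · rintro w (hw | ⟨p, hp, hw⟩)
    · left
      exact Bx_mono (by linarith) le_rfl le_rfl le_rfl hw
    · unfold corr at hw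
      rcases c2 p hp with rfl | h | rfl | rfl | rfl
      · right
        refine ⟨_, ms, ?_⟩
        show w ∈ Bx (D s).r R a0 b0
        rw [show (D3 (s, a0 + 2 * δ, b0).1) = D s from d3U s hs] at hw
        exact Bx_mono le_rfl le_rfl (by show a0 ≤ a0 + 2 * δ; linarith) le_rfl hw
      · right
        refine ⟨_, ms, ?_⟩
        show w ∈ Bx (D s).r R a0 b0
        rw [d3c p.1 (hσc1 p h)] at hw
        have h1 := hO.slo p h
        have h2 := hO.shi p h
        exact Bx_mono (hσcr p h).1 le_rfl (by linarith) (by linarith) hw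
      · left
        rw [show (D3 (y, yb, yt).1) = ρy from d3y] at hw
        exact Bx_mono (by show L ≤ X'; linarith) le_rfl (by show B ≤ yb; linarith)
          (by show yt ≤ T; linarith) hw
      · left
        rw [show (D3 (z, z1, yb).1) = ρz from d3z] at hw
        exact Bx_mono (by show L ≤ X; linarith) le_rfl (by show B ≤ z1; linarith)
          (by show yb ≤ T; linarith) hw
      · right
        refine ⟨_, mt, ?_⟩
        show w ∈ Bx (D t).r R a1 b1
        rw [show (D3 (t, a1, a1 + ε).1) = D t from d3U t ht] at hw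
        exact Bx_mono le_rfl le_rfl le_rfl (by show a1 + ε ≤ b1; linarith) hw
  · intro v hv
    have hv' : v ∈ ds ++ [z'] ∨ v = y ∨ v = z := by
      simp only [List.mem_append, List.mem_cons, List.not_mem_nil, or_false] at hv ⊢
      tauto
    rcases hv' with h | h | h
    · rw [d3c v h]
      obtain ⟨i1, i2, i3, i4⟩ := hO.ins v h
      intro w hw
      right
      exact ⟨_, ms, S_sub_Bx i1 (by linarith) (by show a0 < _; linarith)
        (by show _ < b0; linarith) hw⟩
    · rw [h, d3y]
      intro w hw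
      left
      exact S_sub_Bx (by show L ≤ X; linarith) (by show X' < R; linarith)
        (by show B < yb; linarith) (by show yt < T; linarith) hw
    · rw [h, d3z]
      intro w hw
      right
      exact ⟨_, mt, S_sub_Bx le_rfl (by show X < R; linarith) (by show a1 < z1; linarith)
        (by show z2 < b1; linarith) hw⟩

end Pool.Agent.R299.CBU
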