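import Mathlib

set_option autoImplicit false

namespace Pool.Agent.R299.CBU

open Set

/-- a rectangle `[l,r] × [b,t]` -/
structure Rc where
  l : ℝ
  r : ℝ
  b : ℝ
  t : ℝ

def Rc.S (ρ : Rc) : Set (ℝ × ℝ) := Icc ρ.l ρ.r ×ˢ Icc ρ.b ρ.t

def Rc.Ok (ρ : Rc) : Prop := ρ.l < ρ.r ∧ ρ.b < ρ.t

/-- contact along a vertical segment of positive length -/
def Tch (ρ σ : Rc) : Prop := (ρ.r = σ.l ∨ σ.r = ρ.l) ∧ max ρ.b σ.b < min ρ.t σ.t

theorem Tch.symm {ρ σ : Rc} (h : Tch ρ σ) : Tch σ ρ := by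
  refine ⟨h.1.symm, ?_⟩
  rw [max_comm, min_comm]
  exact h.2

/-- half open boxes -/
def Bx (x1 x2 y1 y2 : ℝ) : Set (ℝ × ℝ) := Ico x1 x2 ×ˢ Ioo y1 y2

theorem mem_Bx {x1 x2 y1 y2 : ℝ} {z : ℝ × ℝ} :
    z ∈ Bx x1 x2 y1 y2 ↔ (x1 ≤ z.1 ∧ z.1 < x2) ∧ (y1 < z.2 ∧ z.2 < y2) := Iff.rfl

theorem mem_S {ρ : Rc} {z : ℝ × ℝ} :
    z ∈ ρ.S ↔ (ρ.l ≤ z.1 ∧ z.1 ≤ ρ.r) ∧ (ρ.b ≤ z.2 ∧ z.2 ≤ ρ.t) := Iff.rfl

theorem Bx_mono {x1 x2 y1 y2 x1' x2' y1' y2' : ℝ} (h1 : x1' ≤ x1) (h2 : x2 ≤ x2')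
    (h3 : y1' ≤ y1) (h4 : y2 ≤ y2') : Bx x1 x2 y1 y2 ⊆ Bx x1' x2' y1' y2' := by
  intro z hz
  rw [mem_Bx] at hz ⊢
  refine ⟨⟨?_, ?_⟩, ?_, ?_⟩ <;> linarith [hz.1.1, hz.1.2, hz.2.1, hz.2.2]

theorem S_sub_Bx {ρ : Rc} {x1 x2 y1 y2 : ℝ} (h1 : x1 ≤ ρ.l) (h2 : ρ.r < x2)
    (h3 : y1 < ρ.b) (h4 : ρ.t < y2) : ρ.S ⊆ Bx x1 x2 y1 y2 := by
  intro z hz
  rw [mem_S] at hz
  rw [mem_Bx]
  refine ⟨⟨?_, ?_⟩, ?_, ?_⟩ <;> linarith [hz.1.1, hz.1.2, hz.2.1, hz.2.2]

variable {V : Type}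

structure Valid (D : V → Rc) (U : Set V) (E : Set (Sym2 V)) : Prop where
  ok : ∀ v ∈ U, (D v).Ok
  tch : ∀ u ∈ U, ∀ v ∈ U, u ≠ v → s(u, v) ∈ E → Tch (D u) (D v)
  dj : ∀ u ∈ U, ∀ v ∈ U, u ≠ v → s(u, v) ∉ E → Disjoint (D u).S (D v).S
  sub : ∀ e ∈ E, ∀ v ∈ e, v ∈ U

open Classical in
/-- adding one new rectangle -/
theorem Valid.add {D : V → Rc} {U : Set V} {E E' : Set (Sym2 V)} (hV : Valid D U E)
    {d : V} (hd : d ∉ U) {ρ : Rc} (hρ : ρ.Ok)
    (hE' : ∀ e ∈ E', d ∈ e) (hE'' : ∀ e ∈ E', ∀ v ∈ e, v ∈ insert d U)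
    (h1 : ∀ u ∈ U, s(u, d) ∈ E' → Tch (D u) ρ)
    (h2 : ∀ u ∈ U, s(u, d) ∉ E' → Disjoint (D u).S ρ.S) :
    Valid (Function.update D d ρ) (insert d U) (E ∪ E') := by
  have hup : ∀ u ∈ U, Function.update D d ρ u = D u := by
    intro u hu
    have : u ≠ d := by rintro rfl; exact hd hu
    simp [this]
  have hupd : Function.update D d ρ d = ρ := by simp
  have hE : ∀ e ∈ E, d ∉ e := fun e he hde => hd (hV.sub e he d hde)
  refine ⟨?_, ?_, ?_, ?_⟩
  · intro v hv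
    rcases mem_insert_iff.1 hv with rfl | hv
    · rw [hupd]; exact hρ
    · rw [hup v hv]; exact hV.ok v hv
  · intro u hu v hv huv he
    rcases mem_insert_iff.1 hu with hu1 | hu1
    · rcases mem_insert_iff.1 hv with hv1 | hv1
      · exact absurd (hu1.trans hv1.symm) huv
      · rw [hup v hv1, hu1, hupd]
        rw [hu1] at he
        rcases he with he | he
        · exact absurd (Sym2.mem_mk_left d v) (hE _ he)
        · rw [Sym2.eq_swap] at he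
          exact (h1 v hv1 he).symm
    · rcases mem_insert_iff.1 hv with hv1 | hv1
      · rw [hup u hu1, hv1, hupd]
        rw [hv1] at he
        rcases he with he | he
        · exact absurd (Sym2.mem_mk_right u d) (hE _ he)
        · exact h1 u hu1 he
      · rw [hup u hu1, hup v hv1]
        rcases he with he | he
        · exact hV.tch u hu1 v hv1 huv he
        · have := hE' _ he
          rw [Sym2.mem_iff] at this
          rcases this with h | h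
          · rw [← h] at hu1; exact absurd hu1 hd
          · rw [← h] at hv1; exact absurd hv1 hd
  · intro u hu v hv huv he
    have he1 : s(u, v) ∉ E := fun h => he (Or.inl h)
    have he2 : s(u, v) ∉ E' := fun h => he (Or.inr h)
    rcases mem_insert_iff.1 hu with hu1 | hu1
    · rcases mem_insert_iff.1 hv with hv1 | hv1
      · exact absurd (hu1.trans hv1.symm) huv
      · rw [hup v hv1, hu1, hupd]
        rw [hu1, Sym2.eq_swap] at he2
        exact (h2 v hv1 he2).symm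
    · rcases mem_insert_iff.1 hv with hv1 | hv1
      · rw [hup u hu1, hv1, hupd]
        rw [hv1] at he2
        exact h2 u hu1 he2
      · rw [hup u hu1, hup v hv1]
        exact hV.dj u hu1 v hv1 huv he1
  · intro e he v hv
    rcases he with he | he
    · exact mem_insert_of_mem _ (hV.sub e he v hv)
    · exact hE'' e he v hv

/-- edges of a path given as a list -/
def pe : List V → Set (Sym2 V)
  | [] => ∅
  | [_] => ∅
  | a :: b :: l => insert s(a, b) (pe (b :: l))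

theorem pe_append (l1 : List V) (a : V) (l2 : List V) :
    pe (l1 ++ a :: l2) = pe (l1 ++ [a]) ∪ pe (a :: l2) := by
  induction l1 with
  | nil => simp [pe]
  | cons b l ih =>
    cases l with
    | nil =>
      cases l2 with
      | nil => simp [pe]
      | cons c l2 => simp [pe, insert_comm]
    | cons c l =>
      simp only [List.cons_append, pe] at ih ⊢
      rw [ih, insert_union]

theorem pe_mem {l : List V} {e : Sym2 V} (h : e ∈ pe l) {v : V} (hv : v ∈ e) : v ∈ l := by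
  induction l with
  | nil => exact absurd h (notMem_empty _)
  | cons a l ih =>
    cases l with
    | nil => exact absurd h (notMem_empty _)
    | cons b l =>
      rcases mem_insert_iff.1 h with h | h
      · rw [h, Sym2.mem_iff] at hv
        rcases hv with rfl | rfl <;> simp
      · exact List.mem_cons_of_mem _ (ih h)

/-- corridor of a slot entry -/
def corr (D : V → Rc) (R : ℝ) (p : V × ℝ × ℝ) : Set (ℝ × ℝ) := Bx (D p.1).r R p.2.1 p.2.2

structure Slot (D : V → Rc) (U : Set V) (σ : List (V × ℝ × ℝ)) (L R B T : ℝ) : Prop where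
  LR : L < R
  mem : ∀ p ∈ σ, p.1 ∈ U
  lt : ∀ p ∈ σ, p.2.1 < p.2.2
  lo : ∀ p ∈ σ, (D p.1).b ≤ p.2.1
  hi : ∀ p ∈ σ, p.2.2 ≤ (D p.1).t
  rL : ∀ p ∈ σ, (D p.1).r < L
  Blo : ∀ p ∈ σ, B ≤ p.2.1
  hiT : ∀ p ∈ σ, p.2.2 ≤ T
  srt : σ.Pairwise (fun p q => q.2.2 ≤ p.2.1)
  cor : ∀ p ∈ σ, ∀ u ∈ U, u ≠ p.1 → Disjoint (D u).S (corr D R p)
  str : ∀ u ∈ U, Disjoint (D u).S (Bx L R B T)

def Reg (D : V → Rc) (σ : List (V × ℝ × ℝ)) (L R B T : ℝ) : Set (ℝ × ℝ) :=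
  {z | z ∈ Bx L R B T ∨ ∃ p ∈ σ, z ∈ corr D R p}

theorem Slot.mono {D D' : V → Rc} {U U' : Set V} {σ : List (V × ℝ × ℝ)} {L R B T : ℝ}
    (hS : Slot D U σ L R B T) (hU : U ⊆ U') (hD : ∀ v ∈ U, D' v = D v)
    (hn : ∀ v ∈ U', v ∉ U → Disjoint (D' v).S (Reg D σ L R B T)) : Slot D' U' σ L R B T := by
  have hc : ∀ p ∈ σ, corr D' R p = corr D R p := by
    intro p hp
    unfold corr
    rw [hD _ (hS.mem p hp)]
  refine ⟨hS.LR, fun p hp => hU (hS.mem p hp), hS.lt, ?_, ?_, ?_, hS.Blo, hS.hiT, hS.srt, ?_, ?_⟩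
  · intro p hp; rw [hD _ (hS.mem p hp)]; exact hS.lo p hp
  · intro p hp; rw [hD _ (hS.mem p hp)]; exact hS.hi p hp
  · intro p hp; rw [hD _ (hS.mem p hp)]; exact hS.rL p hp
  · intro p hp u hu hne
    rw [hc p hp]
    by_cases h : u ∈ U
    · rw [hD u h]; exact hS.cor p hp u h hne
    · exact (hn u hu h).mono_right (fun z hz => Or.inr ⟨p, hp, hz⟩)
  · intro u hu
    by_cases h : u ∈ U
    · rw [hD u h]; exact hS.str u h
    · exact (hn u hu h).mono_right (fun z hz => Or.inl hz)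

theorem Reg_congr {D D' : V → Rc} {σ : List (V × ℝ × ℝ)} {L R B T : ℝ}
    (hD : ∀ p ∈ σ, D' p.1 = D p.1) : Reg D' σ L R B T = Reg D σ L R B T := by
  ext z
  unfold Reg corr
  simp only [mem_ofPred_eq]
  constructor
  · rintro (h | ⟨p, hp, h⟩)
    · exact Or.inl h
    · rw [hD p hp] at h; exact Or.inr ⟨p, hp, h⟩
  · rintro (h | ⟨p, hp, h⟩)
    · exact Or.inl h
    · rw [← hD p hp] at h; exact Or.inr ⟨p, hp, h⟩

structure Pt where
  ρ : ℝ
  c : ℝ
  e : ℝ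

/-- port region to the right of `v` -/
def prt (D : V → Rc) (K : V → Pt) (v : V) : Set (ℝ × ℝ) := Bx (D v).r (K v).ρ (K v).c (K v).e

structure Ports (D : V → Rc) (U I : Set V) (K : V → Pt) : Prop where
  r : ∀ v ∈ I, (D v).r < (K v).ρ
  ce : ∀ v ∈ I, (K v).c < (K v).e
  b : ∀ v ∈ I, (D v).b ≤ (K v).c
  t : ∀ v ∈ I, (K v).e ≤ (D v).t
  fr : ∀ v ∈ I, ∀ u ∈ U, u ≠ v → Disjoint (D u).S (prt D K v)
  dj : ∀ v ∈ I, ∀ w ∈ I, v ≠ w → Disjoint (prt D K v) (prt D K w)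

structure Ext (D : V → Rc) (U : Set V) (EU : Set (Sym2 V)) (D' : V → Rc) (K : V → Pt)
    (I : Set V) (E : Set (Sym2 V)) (A : Set (ℝ × ℝ)) : Prop where
  agr : ∀ v ∈ U, D' v = D v
  val : Valid D' (U ∪ I) (EU ∪ E)
  ins : ∀ v ∈ I, v ∉ U → (D' v).S ⊆ A
  prts : Ports D' (U ∪ I) I K
  pin : ∀ v ∈ I, prt D' K v ⊆ A

open Classical in
theorem Ext.merge {D D1 D2 : V → Rc} {U : Set V} {EU : Set (Sym2 V)} {K1 K2 : V → Pt}
    {I1 I2 : Set V} {E1 E2 : Set (Sym2 V)} {A1 A2 A : Set (ℝ × ℝ)}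
    (h1 : Ext D U EU D1 K1 I1 E1 A1) (h2 : Ext D1 (U ∪ I1) (EU ∪ E1) D2 K2 I2 E2 A2)
    (hd : Disjoint A1 A2) (hA1 : A1 ⊆ A) (hA2 : A2 ⊆ A) :
    Ext D U EU D2 (fun v => if v ∈ I1 then K1 v else K2 v) (I1 ∪ I2) (E1 ∪ E2) A := by
  set K : V → Pt := fun v => if v ∈ I1 then K1 v else K2 v with hK
  have k1 : ∀ v ∈ I1, K v = K1 v := fun v hv => by simp [hK, hv]
  have k2 : ∀ v, v ∉ I1 → K v = K2 v := fun v hv => by simp [hK, hv]
  have p1 : ∀ v ∈ I1, prt D2 K v = prt D1 K1 v := by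
    intro v hv
    unfold prt
    rw [k1 v hv, h2.agr v (Or.inr hv)]
  have p2 : ∀ v, v ∉ I1 → prt D2 K v = prt D2 K2 v := by
    intro v hv
    unfold prt
    rw [k2 v hv]
  refine ⟨?_, ?_, ?_, ⟨?_, ?_, ?_, ?_, ?_, ?_⟩, ?_⟩
  · intro v hv
    rw [h2.agr v (Or.inl hv), h1.agr v hv]
  · have := h2.val
    rwa [union_assoc, union_assoc] at this
  · intro v hv hvU
    by_cases h : v ∈ I1
    · rw [h2.agr v (Or.inr h)]
      exact (h1.ins v h hvU).trans hA1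
    · have hv2 : v ∈ I2 := hv.resolve_left h
      exact (h2.ins v hv2 (fun hc => hc.elim hvU h)).trans hA2
  · intro v hv
    by_cases h : v ∈ I1
    · rw [k1 v h, h2.agr v (Or.inr h)]; exact h1.prts.r v h
    · rw [k2 v h]; exact h2.prts.r v (hv.resolve_left h)
  · intro v hv
    by_cases h : v ∈ I1
    · rw [k1 v h]; exact h1.prts.ce v h
    · rw [k2 v h]; exact h2.prts.ce v (hv.resolve_left h)
  · intro v hv
    by_cases h : v ∈ I1
    · rw [k1 v h, h2.agr v (Or.inr h)]; exact h1.prts.b v h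
    · rw [k2 v h]; exact h2.prts.b v (hv.resolve_left h)
  · intro v hv
    by_cases h : v ∈ I1
    · rw [k1 v h, h2.agr v (Or.inr h)]; exact h1.prts.t v h
    · rw [k2 v h]; exact h2.prts.t v (hv.resolve_left h)
  · intro v hv u hu huv
    by_cases h : v ∈ I1
    · rw [p1 v h]
      by_cases hu1 : u ∈ U ∪ I1
      · rw [h2.agr u hu1]
        exact h1.prts.fr v h u hu1 huv
      · have hu2 : u ∈ I2 := by
          rcases hu with hu | hu | hu
          · exact absurd (Or.inl hu) hu1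
          · exact absurd (Or.inr hu) hu1
          · exact hu
        exact (hd.symm.mono (h2.ins u hu2 hu1) (h1.pin v h))
    · rw [p2 v h]
      refine h2.prts.fr v (hv.resolve_left h) u ?_ huv
      rwa [union_assoc]
  · intro v hv w hw hvw
    by_cases h : v ∈ I1
    · rw [p1 v h]
      by_cases h' : w ∈ I1
      · rw [p1 w h']; exact h1.prts.dj v h w h' hvw
      · rw [p2 w h']
        exact hd.mono (h1.pin v h) (h2.pin w (hw.resolve_left h'))
    · rw [p2 v h]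
      by_cases h' : w ∈ I1
      · rw [p1 w h']
        exact hd.symm.mono (h2.pin v (hv.resolve_left h)) (h1.pin w h')
      · rw [p2 w h']
        exact h2.prts.dj v (hv.resolve_left h) w (hw.resolve_left h') hvw
  · intro v hv
    by_cases h : v ∈ I1
    · rw [p1 v h]; exact (h1.pin v h).trans hA1
    · rw [p2 v h]; exact (h2.pin v (hv.resolve_left h)).trans hA2

end Pool.Agent.R299.CBU
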