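import Pool.Agent.R299.CBU.Attach
import Pool.Agent.Results.MP_8269f7_co.SublinearMaxDegree

set_option autoImplicit false

namespace Pool.Agent.R299.CBU

open Set SimpleGraph
open Pool.Agent.Results.MP_8269f7_co.SublinearMaxDegree (HasK4Minor contract active Small
  exists_small contract_minor active_contract_ncard)

variable {V : Type}

theorem walk_of_chain (G : SimpleGraph V) : ∀ (P : List V) (a b : V),
    (a :: (P ++ [b])).IsChain G.Adj → ∃ w : G.Walk a b, w.support = a :: (P ++ [b]) := by
  intro P
  induction P with
  | nil =>
    intro a b h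
    have hab : G.Adj a b := by simpa using h
    exact ⟨Walk.cons hab Walk.nil, by simp⟩
  | cons c P ih =>
    intro a b h
    rw [List.cons_append, List.isChain_cons_cons] at h
    obtain ⟨w, hw⟩ := ih c b h.2
    exact ⟨Walk.cons h.1 w, by simp [hw]⟩

/-- two internally disjoint paths form a cycle -/
theorem cycle_len (G : SimpleGraph V) (a b : V) (P Q : List V)
    (hP : (a :: (P ++ [b])).IsChain G.Adj) (hQ : (a :: (Q ++ [b])).IsChain G.Adj)
    (hPn : (a :: (P ++ [b])).Nodup) (hQn : (a :: (Q ++ [b])).Nodup)
    (hd : ∀ v ∈ P, v ∉ Q) (hQ0 : Q ≠ []) :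
    G.egirth ≤ ((P.length + Q.length + 2 : ℕ) : ℕ∞) := by
  obtain ⟨c, Q', rfl⟩ := List.exists_cons_of_ne_nil hQ0
  obtain ⟨w, hw⟩ := walk_of_chain G P a b hP
  rw [List.cons_append, List.isChain_cons_cons] at hQ
  obtain ⟨w', hw'⟩ := walk_of_chain G Q' c b hQ.2
  have hPn' := List.nodup_cons.1 hPn
  have hPn2 := List.nodup_append.1 hPn'.2
  have hQn' := List.nodup_cons.1 hQn
  have hQn2 := List.nodup_append.1 hQn'.2
  have hcb : c ≠ b := hQn2.2.2 c (by simp) b (by simp)
  have hac : a ≠ c := hQ.1.ne
  have hcyc : (Walk.cons hQ.1 (w'.append w.reverse)).IsCycle := by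
    rw [Walk.cons_isCycle_iff]
    constructor
    · rw [Walk.isPath_def, Walk.support_append, Walk.support_reverse, hw, hw']
      have e1 : (a :: (P ++ [b])).reverse.tail = P.reverse ++ [a] := by simp
      rw [e1]
      have e2 : c :: (Q' ++ [b]) = (c :: Q') ++ [b] := rfl
      rw [e2, List.nodup_append]
      refine ⟨hQn'.2, ?_, ?_⟩
      · rw [List.nodup_append]
        refine ⟨List.nodup_reverse.2 hPn2.1, by simp, ?_⟩
        intro x hx y hy hxy
        rw [List.mem_singleton] at hy
        rw [hxy, hy, List.mem_reverse] at hx
        exact hPn'.1 (List.mem_append.2 (Or.inl hx))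
      · intro x hx y hy hxy
        subst hxy
        rw [List.mem_append, List.mem_reverse, List.mem_singleton] at hy
        rw [List.mem_append, List.mem_singleton] at hx
        rcases hy with hy | hy
        · rcases hx with hx | hx
          · exact hd x hy hx
          · rw [hx] at hy
            exact hPn2.2.2 b hy b (by simp) rfl
        · rw [hy] at hx
          apply hQn'.1
          rcases hx with hx | hx
          · exact List.mem_append.2 (Or.inl hx)
          · exact List.mem_append.2 (Or.inr (by simp [hx]))
    · rw [Walk.edges_append, Walk.edges_reverse, List.mem_append, List.mem_reverse]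
      rintro (h | h)
      · have := Walk.fst_mem_support_of_mem_edges _ h
        rw [hw'] at this
        exact hQn'.1 this
      · have := Walk.snd_mem_support_of_mem_edges _ h
        rw [hw, List.mem_cons, List.mem_append, List.mem_singleton] at this
        rcases this with h | h | h
        · exact hac h.symm
        · exact hd c h (by simp)
        · exact hcb h
  have hlen := G.egirth_le_length hcyc
  refine hlen.trans (le_of_eq ?_)
  congr 1
  rw [Walk.length_cons, Walk.length_append, Walk.length_reverse]
  have h1 := w.length_support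
  have h2 := w'.length_support
  rw [hw] at h1
  rw [hw'] at h2
  simp only [List.length_cons, List.length_append, List.length_nil] at h1 h2 ⊢
  omega

structure Inv (G H : SimpleGraph V) (W : Set V) (I : Sym2 V → Set V)
    (E : Sym2 V → Set (Sym2 V)) : Prop where
  act : ∀ a b, H.Adj a b → a ∈ W
  net : ∀ a b, H.Adj a b → ∃ P, Net (a :: (P ++ [b])) (I s(a, b) ∪ {a, b}) (E s(a, b)) ∧
    (a :: (P ++ [b])).IsChain G.Adj
  dW : ∀ a b, H.Adj a b → ∀ v ∈ I s(a, b), v ∉ W
  dI : ∀ a b c d, H.Adj a b → H.Adj c d → s(a, b) ≠ s(c, d) → ∀ v ∈ I s(a, b), v ∉ I s(c, d)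

def UI (H : SimpleGraph V) (I : Sym2 V → Set V) : Set V := {v | ∃ a b, H.Adj a b ∧ v ∈ I s(a, b)}

def UE (H : SimpleGraph V) (E : Sym2 V → Set (Sym2 V)) : Set (Sym2 V) :=
  {e | ∃ a b, H.Adj a b ∧ e ∈ E s(a, b)}

theorem chain_rev (G : SimpleGraph V) {a b : V} {P : List V}
    (h : (a :: (P ++ [b])).IsChain G.Adj) : (b :: (P.reverse ++ [a])).IsChain G.Adj := by
  have e1 : b :: (P.reverse ++ [a]) = (a :: (P ++ [b])).reverse := by simp
  rw [e1, List.isChain_reverse]
  exact h.imp (fun _ _ hab => hab.symm)

theorem net_rev {a b : V} {P : List V} {I : Set V} {E : Set (Sym2 V)}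
    (h : Net (a :: (P ++ [b])) (I ∪ {a, b}) E) :
    Net (b :: (P.reverse ++ [a])) (I ∪ {b, a}) E := by
  have e1 : b :: (P.reverse ++ [a]) = (a :: (P ++ [b])).reverse := by simp
  rw [e1, pair_comm b a]
  exact h.rev

open Classical in
theorem red [Finite V] (G : SimpleGraph V) (hg : 7 ≤ G.egirth) : ∀ (m : ℕ) (H : SimpleGraph V)
    (W : Set V) (I : Sym2 V → Set V) (E : Sym2 V → Set (Sym2 V)), (active H).ncard ≤ m →
    ¬ HasK4Minor H → Inv G H W I E → Drw (W ∪ UI H I) (UE H E) := by
  intro m
  induction m using Nat.strong_induction_on with
  | _ m ih =>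
  intro H W I E hm hK hI
  by_cases hact : ∃ a b, H.Adj a b
  · obtain ⟨a0, b0, hab0⟩ := hact
    obtain ⟨x, ⟨a, hxa⟩, p, r, hpr⟩ := exists_small H hK a0 b0 hab0
    have hxane := hxa.ne
    have hxW : x ∈ W := hI.act x a hxa
    have haW : a ∈ W := hI.act a x hxa.symm
    have hcard : (active (contract H x a)).ncard < m :=
      lt_of_lt_of_le (active_contract_ncard H x a hxa) hm
    have hK' : ¬ HasK4Minor (contract H x a) := fun h => hK (contract_minor H x a hxa h)
    by_cases hb : ∃ b, b ≠ a ∧ H.Adj x b
    · obtain ⟨b, hba, hxb⟩ := hb
      have hxbne := hxb.ne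
      have hbW : b ∈ W := hI.act b x hxb.symm
      have hN : ∀ w, H.Adj x w → w = a ∨ w = b := by
        intro w hw
        rcases hpr a hxa with h1 | h1 <;> rcases hpr b hxb with h2 | h2 <;>
          rcases hpr w hw with h3 | h3
        · exact absurd (h2.trans h1.symm) hba
        · exact absurd (h2.trans h1.symm) hba
        · left; rw [h1, h3]
        · right; rw [h2, h3]
        · right; rw [h2, h3]
        · left; rw [h1, h3]
        · exact absurd (h2.trans h1.symm) hba
        · exact absurd (h2.trans h1.symm) hba
      -- adjacency of the contracted graph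
      have hA1 : ∀ p r, (contract H x a).Adj p r →
          p ≠ x ∧ r ≠ x ∧ (s(p, r) = s(a, b) ∨ H.Adj p r) := by
        rintro p r ⟨h1, h2, h3, h4⟩
        refine ⟨h2, h3, ?_⟩
        rcases h4 with h | ⟨h, h'⟩ | ⟨h, h'⟩
        · exact Or.inr h
        · left
          rcases hN r h' with h5 | h5
          · exact absurd (h.trans h5.symm) h1
          · rw [h, h5]
        · left
          rcases hN p h' with h5 | h5
          · exact absurd (h5.trans h.symm) h1
          · rw [h, h5, Sym2.eq_swap]
      have hA2 : ∀ p r, H.Adj p r → p ≠ x → r ≠ x → (contract H x a).Adj p r :=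
        fun p r h h1 h2 => ⟨h.ne, h1, h2, Or.inl h⟩
      have hA3 : (contract H x a).Adj a b :=
        ⟨hba.symm, hxane.symm, hxbne.symm, Or.inr (Or.inl ⟨rfl, hxb⟩)⟩
      -- series
      obtain ⟨P1, hN1, hC1⟩ := hI.net a x hxa.symm
      obtain ⟨P2, hN2, hC2⟩ := hI.net x b hxb
      set In : Set V := I s(a, x) ∪ I s(x, b) ∪ {x} with hIn
      set En : Set (Sym2 V) := E s(a, x) ∪ E s(x, b) with hEn
      have hne12 : s(a, x) ≠ s(x, b) := by
        intro h
        rcases Sym2.eq_iff.1 h with ⟨h, -⟩ | ⟨h, -⟩
        · exact hxane h.symm
        · exact hba h.symm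
      have hser : Net (a :: ((P1 ++ x :: P2) ++ [b])) (In ∪ {a, b}) En := by
        have h1 : a :: (P1 ++ [x]) = (a :: P1) ++ [x] := rfl
        rw [h1] at hN1
        have h2 := Net.ser (a :: P1) (P2 ++ [b]) x _ _ _ _ hN1 hN2 (by
          intro v hv1 hv2
          rcases hv1 with hv1 | hv1 | hv1
          · rcases hv2 with hv2 | hv2 | hv2
            · exact absurd hv2 (hI.dI a x x b hxa.symm hxb hne12 v hv1)
            · exact hv2
            · rw [mem_singleton_iff] at hv2
              rw [hv2] at hv1
              exact absurd hbW (hI.dW a x hxa.symm b hv1)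
          · rw [hv1] at hv2
            rcases hv2 with hv2 | hv2 | hv2
            · exact absurd haW (hI.dW x b hxb a hv2)
            · exact absurd hv2.symm hxane
            · exact absurd (mem_singleton_iff.1 hv2).symm hba
          · exact hv1)
        have h3 : (a :: P1) ++ x :: (P2 ++ [b]) = a :: ((P1 ++ x :: P2) ++ [b]) := by simp
        have h4 : (I s(a, x) ∪ {a, x}) ∪ (I s(x, b) ∪ {x, b}) = In ∪ {a, b} := by
          ext v
          simp only [hIn, mem_union, mem_insert_iff, mem_singleton_iff]
          tauto
        rw [h3, h4] at h2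
        exact h2
      have hserC : (a :: ((P1 ++ x :: P2) ++ [b])).IsChain G.Adj := by
        have h3 : a :: ((P1 ++ x :: P2) ++ [b]) = (a :: P1) ++ x :: (P2 ++ [b]) := by simp
        rw [h3, List.isChain_split]
        exact ⟨hC1, hC2⟩
      have hInW : ∀ v ∈ In, v ∉ W \ {x} := by
        rintro v ((h | h) | h) hv
        · exact hI.dW a x hxa.symm v h hv.1
        · exact hI.dW x b hxb v h hv.1
        · exact hv.2 h
      have hInI : ∀ p r, H.Adj p r → p ≠ x → r ≠ x → ∀ v ∈ In, v ∉ I s(p, r) := by
        intro p r hpr' hp hr v hv hv'
        have n1 : s(a, x) ≠ s(p, r) := by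
          intro h
          rcases Sym2.eq_iff.1 h with ⟨-, h⟩ | ⟨-, h⟩
          · exact hr h.symm
          · exact hp h.symm
        have n2 : s(x, b) ≠ s(p, r) := by
          intro h
          rcases Sym2.eq_iff.1 h with ⟨h, -⟩ | ⟨h, -⟩
          · exact hp h.symm
          · exact hr h.symm
        rcases hv with (h | h) | h
        · exact hI.dI a x p r hxa.symm hpr' n1 v h hv'
        · exact hI.dI x b p r hxb hpr' n2 v h hv'
        · rw [mem_singleton_iff] at h
          rw [h] at hv'
          exact hI.dW p r hpr' x hv' hxW
      -- the new network between a and b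
      set Ia : Set V := (if H.Adj a b then I s(a, b) else ∅) ∪ In with hIa
      set Ea : Set (Sym2 V) := (if H.Adj a b then E s(a, b) else ∅) ∪ En with hEa
      have hnew : ∃ P, Net (a :: (P ++ [b])) (Ia ∪ {a, b}) Ea ∧
          (a :: (P ++ [b])).IsChain G.Adj := by
        by_cases hab : H.Adj a b
        · obtain ⟨P0, hN0, hC0⟩ := hI.net a b hab
          have hIe : Ia = I s(a, b) ∪ In := by rw [hIa, if_pos hab]
          have hEe : Ea = E s(a, b) ∪ En := by rw [hEa, if_pos hab]
          have hdis : ∀ v ∈ I s(a, b) ∪ {a, b}, v ∈ In ∪ {a, b} → v = a ∨ v = b := by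
            intro v hv hv'
            rcases hv with hv | hv
            · rcases hv' with hv' | hv'
              · exact absurd hv (hInI a b hab hxane.symm hxbne.symm v hv')
              · exact hv'
            · exact hv
          have hset : (I s(a, b) ∪ {a, b}) ∪ (In ∪ {a, b}) = Ia ∪ {a, b} := by
            rw [hIe]
            ext v
            simp only [mem_union, mem_insert_iff, mem_singleton_iff]
            tauto
          have hset' : (In ∪ {a, b}) ∪ (I s(a, b) ∪ {a, b}) = Ia ∪ {a, b} := by
            rw [hIe]
            ext v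
            simp only [mem_union, mem_insert_iff, mem_singleton_iff]
            tauto
          have hcyc := cycle_len G a b P0 (P1 ++ x :: P2) hC0 hserC hN0.nodup hser.nodup (by
            intro v hv hv'
            have h1 := hN0.sub v (List.mem_cons_of_mem _ (List.mem_append.2 (Or.inl hv)))
            have h2 := hser.sub v (List.mem_cons_of_mem _ (List.mem_append.2 (Or.inl hv')))
            have h3 := (List.nodup_cons.1 hN0.nodup)
            rcases hdis v h1 h2 with h | h
            · rw [h] at hv
              exact h3.1 (List.mem_append.2 (Or.inl hv))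
            · rw [h] at hv
              exact (List.nodup_append.1 h3.2).2.2 b hv b (by simp) rfl) (by simp)
          have hlen : 7 ≤ P0.length + (P1 ++ x :: P2).length + 2 := by
            have := hg.trans hcyc
            exact_mod_cast this
          by_cases hle : 3 ≤ (P1 ++ x :: P2).length
          · refine ⟨P0, ?_, hC0⟩
            have := Net.par a b P0 (P1 ++ x :: P2) _ _ _ _ hN0 hser hdis hle
            rwa [hset, ← hEe] at this
          · refine ⟨P1 ++ x :: P2, ?_, hserC⟩
            have := Net.par a b (P1 ++ x :: P2) P0 _ _ _ _ hser hN0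
              (fun v h1 h2 => hdis v h2 h1) (by omega)
            rwa [hset', union_comm En, ← hEe] at this
        · refine ⟨P1 ++ x :: P2, ?_, hserC⟩
          have hIe : Ia = In := by rw [hIa, if_neg hab, empty_union]
          have hEe : Ea = En := by rw [hEa, if_neg hab, empty_union]
          rw [hIe, hEe]
          exact hser
      set I' : Sym2 V → Set V := fun e => if e = s(a, b) then Ia else I e with hI'
      set E' : Sym2 V → Set (Sym2 V) := fun e => if e = s(a, b) then Ea else E e with hE'
      have i1 : I' s(a, b) = Ia := by simp [hI']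
      have i2 : ∀ e, e ≠ s(a, b) → I' e = I e := fun e he => by simp [hI', he]
      have e1 : E' s(a, b) = Ea := by simp [hE']
      have e2 : ∀ e, e ≠ s(a, b) → E' e = E e := fun e he => by simp [hE', he]
      have hIaW : ∀ v ∈ Ia, v ∉ W \ {x} := by
        intro v hv
        rcases hv with hv | hv
        · by_cases hab : H.Adj a b
          · rw [if_pos hab] at hv
            intro h; exact hI.dW a b hab v hv h.1
          · rw [if_neg hab] at hv; exact absurd hv (notMem_empty v)
        · exact hInW v hv
      have hIaI : ∀ p r, H.Adj p r → p ≠ x → r ≠ x → s(p, r) ≠ s(a, b) → ∀ v ∈ Ia,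
          v ∉ I s(p, r) := by
        intro p r h hp hr hne v hv
        rcases hv with hv | hv
        · by_cases hab : H.Adj a b
          · rw [if_pos hab] at hv
            exact hI.dI a b p r hab h hne.symm v hv
          · rw [if_neg hab] at hv; exact absurd hv (notMem_empty v)
        · exact hInI p r h hp hr v hv
      have hInv : Inv G (contract H x a) (W \ {x}) I' E' := by
        refine ⟨?_, ?_, ?_, ?_⟩
        · intro p r h
          obtain ⟨h1, h2, h3⟩ := hA1 p r h
          refine ⟨?_, h1⟩
          rcases h3 with h3 | h3
          · rcases Sym2.eq_iff.1 h3 with ⟨h3, -⟩ | ⟨h3, -⟩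
            · rw [h3]; exact haW
            · rw [h3]; exact hbW
          · exact hI.act p r h3
        · intro p r h
          obtain ⟨h1, h2, h3⟩ := hA1 p r h
          by_cases h4 : s(p, r) = s(a, b)
          · rw [h4, i1, e1]
            obtain ⟨Pn, hNn, hCn⟩ := hnew
            rcases Sym2.eq_iff.1 h4 with ⟨h5, h6⟩ | ⟨h5, h6⟩
            · rw [h5, h6]; exact ⟨Pn, hNn, hCn⟩
            · rw [h5, h6]; exact ⟨Pn.reverse, net_rev hNn, chain_rev G hCn⟩
          · rw [i2 _ h4, e2 _ h4]
            exact hI.net p r (h3.resolve_left h4)
        · intro p r h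
          obtain ⟨h1, h2, h3⟩ := hA1 p r h
          by_cases h4 : s(p, r) = s(a, b)
          · rw [h4, i1]; exact hIaW
          · rw [i2 _ h4]
            intro v hv hv'
            exact hI.dW p r (h3.resolve_left h4) v hv hv'.1
        · intro p r p' r' h h' hne
          obtain ⟨h1, h2, h3⟩ := hA1 p r h
          obtain ⟨h1', h2', h3'⟩ := hA1 p' r' h'
          by_cases h4 : s(p, r) = s(a, b)
          · rw [h4, i1]
            have h5 : s(p', r') ≠ s(a, b) := fun h5 => hne (h4.trans h5.symm)
            rw [i2 _ h5]
            exact hIaI p' r' (h3'.resolve_left h5) h1' h2' h5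
          · rw [i2 _ h4]
            by_cases h5 : s(p', r') = s(a, b)
            · rw [h5, i1]
              intro v hv hv'
              exact hIaI p r (h3.resolve_left h4) h1 h2 h4 v hv' hv
            · rw [i2 _ h5]
              exact hI.dI p r p' r' (h3.resolve_left h4) (h3'.resolve_left h5) hne
      have hD := ih _ hcard (contract H x a) (W \ {x}) I' E' le_rfl hK' hInv
      have hS1 : (W \ {x}) ∪ UI (contract H x a) I' = W ∪ UI H I := by
        ext v
        constructor
        · rintro (h | ⟨p, r, h, hv⟩)
          · exact Or.inl h.1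
          · obtain ⟨h1, h2, h3⟩ := hA1 p r h
            by_cases h4 : s(p, r) = s(a, b)
            · rw [h4, i1] at hv
              rcases hv with hv | ((hv | hv) | hv)
              · by_cases hab : H.Adj a b
                · rw [if_pos hab] at hv
                  exact Or.inr ⟨a, b, hab, hv⟩
                · rw [if_neg hab] at hv; exact absurd hv (notMem_empty v)
              · exact Or.inr ⟨a, x, hxa.symm, hv⟩
              · exact Or.inr ⟨x, b, hxb, hv⟩
              · left; rw [mem_singleton_iff] at hv; rw [hv]; exact hxW
            · rw [i2 _ h4] at hv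
              exact Or.inr ⟨p, r, h3.resolve_left h4, hv⟩
        · have hIn' : ∀ v ∈ In, v ∈ (W \ {x}) ∪ UI (contract H x a) I' := by
            intro v hv
            refine Or.inr ⟨a, b, hA3, ?_⟩
            rw [i1]; exact Or.inr hv
          rintro (h | ⟨p, r, h, hv⟩)
          · by_cases hvx : v = x
            · apply hIn'; right; exact hvx
            · exact Or.inl ⟨h, hvx⟩
          · by_cases hp : p = x
            · rw [hp] at h hv
              rcases hN r h with h5 | h5
              · rw [h5, Sym2.eq_swap] at hv
                exact hIn' v (Or.inl (Or.inl hv))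
              · rw [h5] at hv
                exact hIn' v (Or.inl (Or.inr hv))
            · by_cases hr : r = x
              · rw [hr] at h hv
                rcases hN p h.symm with h5 | h5
                · rw [h5] at hv
                  exact hIn' v (Or.inl (Or.inl hv))
                · rw [h5, Sym2.eq_swap] at hv
                  exact hIn' v (Or.inl (Or.inr hv))
              · refine Or.inr ⟨p, r, hA2 p r h hp hr, ?_⟩
                by_cases h4 : s(p, r) = s(a, b)
                · rw [h4, i1]
                  have hab : H.Adj a b := by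
                    rw [← mem_edgeSet, ← h4]; exact h
                  rw [h4] at hv
                  left; rw [if_pos hab]; exact hv
                · rw [i2 _ h4]; exact hv
      have hS2 : UE (contract H x a) E' = UE H E := by
        ext v
        constructor
        · rintro ⟨p, r, h, hv⟩
          obtain ⟨h1, h2, h3⟩ := hA1 p r h
          by_cases h4 : s(p, r) = s(a, b)
          · rw [h4, e1] at hv
            rcases hv with hv | (hv | hv)
            · by_cases hab : H.Adj a b
              · rw [if_pos hab] at hv
                exact ⟨a, b, hab, hv⟩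
              · rw [if_neg hab] at hv; exact absurd hv (notMem_empty v)
            · exact ⟨a, x, hxa.symm, hv⟩
            · exact ⟨x, b, hxb, hv⟩
          · rw [e2 _ h4] at hv
            exact ⟨p, r, h3.resolve_left h4, hv⟩
        · have hEn' : ∀ v ∈ En, v ∈ UE (contract H x a) E' := by
            intro v hv
            refine ⟨a, b, hA3, ?_⟩
            rw [e1]; exact Or.inr hv
          rintro ⟨p, r, h, hv⟩
          by_cases hp : p = x
          · rw [hp] at h hv
            rcases hN r h with h5 | h5
            · rw [h5, Sym2.eq_swap] at hv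
              exact hEn' v (Or.inl hv)
            · rw [h5] at hv
              exact hEn' v (Or.inr hv)
          · by_cases hr : r = x
            · rw [hr] at h hv
              rcases hN p h.symm with h5 | h5
              · rw [h5] at hv
                exact hEn' v (Or.inl hv)
              · rw [h5, Sym2.eq_swap] at hv
                exact hEn' v (Or.inr hv)
            · refine ⟨p, r, hA2 p r h hp hr, ?_⟩
              by_cases h4 : s(p, r) = s(a, b)
              · rw [h4, e1]
                have hab : H.Adj a b := by
                  rw [← mem_edgeSet, ← h4]; exact h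
                rw [h4] at hv
                left; rw [if_pos hab]; exact hv
              · rw [e2 _ h4]; exact hv
      rw [hS1, hS2] at hD
      exact hD
    · push Not at hb
      have hN : ∀ w, H.Adj x w → w = a := by
        intro w hw
        by_contra h
        exact hb w h hw
      have hA1 : ∀ p r, (contract H x a).Adj p r → p ≠ x ∧ r ≠ x ∧ H.Adj p r := by
        rintro p r ⟨h1, h2, h3, h4⟩
        refine ⟨h2, h3, ?_⟩
        rcases h4 with h | ⟨h, h'⟩ | ⟨h, h'⟩
        · exact h
        · exact absurd (h.trans (hN r h').symm) h1
        · exact absurd ((hN p h').trans h.symm) h1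
      have hA2 : ∀ p r, H.Adj p r → p ≠ x → r ≠ x → (contract H x a).Adj p r :=
        fun p r h h1 h2 => ⟨h.ne, h1, h2, Or.inl h⟩
      have hInv : Inv G (contract H x a) (W \ {x}) I E := by
        refine ⟨?_, ?_, ?_, ?_⟩
        · intro p r h
          obtain ⟨h1, h2, h3⟩ := hA1 p r h
          exact ⟨hI.act p r h3, h1⟩
        · intro p r h
          exact hI.net p r (hA1 p r h).2.2
        · intro p r h v hv hv'
          exact hI.dW p r (hA1 p r h).2.2 v hv hv'.1
        · intro p r p' r' h h' hne
          exact hI.dI p r p' r' (hA1 p r h).2.2 (hA1 p' r' h').2.2 hne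
      have hD := ih _ hcard (contract H x a) (W \ {x}) I E le_rfl hK' hInv
      obtain ⟨P, hNet, hC⟩ := hI.net a x hxa.symm
      have hD2 := attach hNet (U := (W \ {x}) ∪ UI (contract H x a) I)
        (EU := UE (contract H x a) E) (Or.inl ⟨haW, hxane.symm⟩) (by
          intro v hv hvU
          rcases hv with hv | hv | hv
          · rcases hvU with hvU | ⟨p, r, h, hv'⟩
            · exact absurd hvU.1 (hI.dW a x hxa.symm v hv)
            · obtain ⟨h1, h2, h3⟩ := hA1 p r h
              refine absurd hv' (hI.dI a x p r hxa.symm h3 ?_ v hv)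
              intro h4
              rcases Sym2.eq_iff.1 h4 with ⟨-, h5⟩ | ⟨-, h5⟩
              · exact h2 h5.symm
              · exact h1 h5.symm
          · exact hv
          · rw [mem_singleton_iff] at hv
            rw [hv] at hvU
            rcases hvU with hvU | ⟨p, r, h, hv'⟩
            · exact absurd rfl hvU.2
            · exact absurd hxW (hI.dW p r (hA1 p r h).2.2 x hv')) hD
      have hS1 : (W \ {x}) ∪ UI (contract H x a) I ∪ (I s(a, x) ∪ {a, x}) = W ∪ UI H I := by
        ext v
        constructor
        · rintro ((h | ⟨p, r, h, hv⟩) | (h | h | h))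
          · exact Or.inl h.1
          · exact Or.inr ⟨p, r, (hA1 p r h).2.2, hv⟩
          · exact Or.inr ⟨a, x, hxa.symm, h⟩
          · left; rw [h]; exact haW
          · left; rw [mem_singleton_iff] at h; rw [h]; exact hxW
        · rintro (h | ⟨p, r, h, hv⟩)
          · by_cases hvx : v = x
            · right; right; right; exact hvx
            · exact Or.inl (Or.inl ⟨h, hvx⟩)
          · by_cases hp : p = x
            · rw [hp] at h hv
              rw [hN r h, Sym2.eq_swap] at hv
              exact Or.inr (Or.inl hv)
            · by_cases hr : r = x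
              · rw [hr] at h hv
                rw [hN p h.symm] at hv
                exact Or.inr (Or.inl hv)
              · exact Or.inl (Or.inr ⟨p, r, hA2 p r h hp hr, hv⟩)
      have hS2 : UE (contract H x a) E ∪ E s(a, x) = UE H E := by
        ext v
        constructor
        · rintro (⟨p, r, h, hv⟩ | h)
          · exact ⟨p, r, (hA1 p r h).2.2, hv⟩
          · exact ⟨a, x, hxa.symm, h⟩
        · rintro ⟨p, r, h, hv⟩
          by_cases hp : p = x
          · rw [hp] at h hv
            rw [hN r h, Sym2.eq_swap] at hv
            exact Or.inr hv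
          · by_cases hr : r = x
            · rw [hr] at h hv
              rw [hN p h.symm] at hv
              exact Or.inr hv
            · exact Or.inl ⟨p, r, hA2 p r h hp hr, hv⟩
      rw [hS1, hS2] at hD2
      exact hD2
  · push Not at hact
    have h1 : UI H I = ∅ := by
      ext v
      simp only [mem_empty_iff_false, iff_false]
      rintro ⟨a, b, h, -⟩
      exact hact a b h
    have h2 : UE H E = ∅ := by
      ext v
      simp only [mem_empty_iff_false, iff_false]
      rintro ⟨a, b, h, -⟩
      exact hact a b h
    rw [h1, h2, union_empty]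
    exact base W

theorem drawable [Finite V] (G : SimpleGraph V) (hg : 7 ≤ G.egirth) (hK : ¬ HasK4Minor G) :
    Drw (univ : Set V) G.edgeSet := by
  have h := red G hg _ G univ (fun _ => ∅) (fun e => {e}) le_rfl hK (by
    refine ⟨fun _ _ _ => mem_univ _, ?_, ?_, ?_⟩
    · intro a b hab
      refine ⟨[], ?_, ?_⟩
      · have := Net.edge a b hab.ne
        simpa using this
      · simpa using hab
    · intro a b _ v hv; exact absurd hv (notMem_empty v)
    · intro a b c d _ _ _ v hv; exact absurd hv (notMem_empty v))
  have h1 : UE G (fun e => ({e} : Set (Sym2 V))) = G.edgeSet := by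
    ext e
    constructor
    · rintro ⟨a, b, hab, he⟩
      rw [mem_singleton_iff] at he
      rw [he]; exact hab
    · intro he
      induction e using Sym2.ind with | _ a b => ?_
      exact ⟨a, b, he, rfl⟩
  rw [h1, univ_union] at h
  exact h

end Pool.Agent.R299.CBU
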