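import Pool.Agent.R299.CBU.Ear

set_option autoImplicit false

namespace Pool.Agent.R299.CBU

open Set

variable {V : Type}

/-- two-terminal networks with a marked path, built by series composition and by adding a network
along an ear of length at least four -/
inductive Net : List V → Set V → Set (Sym2 V) → Prop
  | edge (a b : V) (h : a ≠ b) : Net [a, b] {a, b} {s(a, b)}
  | ser (P1 P2 : List V) (m : V) (I1 I2 : Set V) (E1 E2 : Set (Sym2 V))
      (h1 : Net (P1 ++ [m]) I1 E1) (h2 : Net (m :: P2) I2 E2)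
      (hI : ∀ v ∈ I1, v ∈ I2 → v = m) : Net (P1 ++ m :: P2) (I1 ∪ I2) (E1 ∪ E2)
  | par (s t : V) (P Q : List V) (I1 I2 : Set V) (E1 E2 : Set (Sym2 V))
      (h1 : Net (s :: (P ++ [t])) I1 E1) (h2 : Net (s :: (Q ++ [t])) I2 E2)
      (hI : ∀ v ∈ I1, v ∈ I2 → v = s ∨ v = t) (hQ : 3 ≤ Q.length) :
      Net (s :: (P ++ [t])) (I1 ∪ I2) (E1 ∪ E2)

theorem Net.sub {P : List V} {I : Set V} {E : Set (Sym2 V)} (h : Net P I E) :
    ∀ v ∈ P, v ∈ I := by
  induction h with
  | edge a b h =>
    intro v hv
    simpa using hv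
  | ser P1 P2 m I1 I2 E1 E2 h1 h2 hI ih1 ih2 =>
    intro v hv
    rcases List.mem_append.1 hv with h | h
    · exact Or.inl (ih1 v (by simp [h]))
    · exact Or.inr (ih2 v h)
  | par s t P Q I1 I2 E1 E2 h1 h2 hI hQ ih1 ih2 =>
    intro v hv
    exact Or.inl (ih1 v hv)

theorem Net.nodup {P : List V} {I : Set V} {E : Set (Sym2 V)} (h : Net P I E) : P.Nodup := by
  induction h with
  | edge a b h => simp [h]
  | ser P1 P2 m I1 I2 E1 E2 h1 h2 hI ih1 ih2 =>
    rw [List.nodup_append] at ih1 ⊢
    refine ⟨ih1.1, ih2, ?_⟩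
    intro a ha b hb hab
    subst hab
    have h3 := hI a (h1.sub a (by simp [ha])) (h2.sub a hb)
    exact ih1.2.2 a ha m (by simp) h3
  | par s t P Q I1 I2 E1 E2 h1 h2 hI hQ ih1 ih2 => exact ih1

theorem Net.pe_sub {P : List V} {I : Set V} {E : Set (Sym2 V)} (h : Net P I E) : pe P ⊆ E := by
  induction h with
  | edge a b h => simp [pe]
  | ser P1 P2 m I1 I2 E1 E2 h1 h2 hI ih1 ih2 =>
    rw [pe_append]
    exact union_subset_union ih1 ih2
  | par s t P Q I1 I2 E1 E2 h1 h2 hI hQ ih1 ih2 =>
    exact ih1.trans subset_union_left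

theorem Net.rev {P : List V} {I : Set V} {E : Set (Sym2 V)} (h : Net P I E) :
    Net P.reverse I E := by
  induction h with
  | edge a b h =>
    have := Net.edge b a h.symm
    simpa [pair_comm, Sym2.eq_swap] using this
  | ser P1 P2 m I1 I2 E1 E2 h1 h2 hI ih1 ih2 =>
    have e1 : (P1 ++ m :: P2).reverse = P2.reverse ++ m :: P1.reverse := by simp
    rw [e1, union_comm I1, union_comm E1]
    apply Net.ser
    · simpa using ih2
    · simpa using ih1
    · intro v h2 h1; exact hI v h1 h2
  | par s t P Q I1 I2 E1 E2 h1 h2 hI hQ ih1 ih2 =>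
    have e1 : (s :: (P ++ [t])).reverse = t :: (P.reverse ++ [s]) := by simp
    have e2 : (s :: (Q ++ [t])).reverse = t :: (Q.reverse ++ [s]) := by simp
    rw [e1] at ih1 ⊢
    rw [e2] at ih2
    apply Net.par t s P.reverse Q.reverse I1 I2 E1 E2 ih1 ih2
    · intro v h1 h2; exact (hI v h1 h2).symm
    · simpa using hQ

theorem split3 (Q : List V) (hQ : 3 ≤ Q.length) : ∃ ds z' y z, Q = ds ++ [z', y, z] := by
  rcases List.eq_nil_or_concat Q with h | ⟨Q1, z, h⟩
  · rw [h] at hQ; simp at hQ
  subst h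
  rcases List.eq_nil_or_concat Q1 with h | ⟨Q2, y, h⟩
  · rw [h] at hQ; simp at hQ
  subst h
  rcases List.eq_nil_or_concat Q2 with h | ⟨Q3, z', h⟩
  · rw [h] at hQ; simp at hQ
  subst h
  exact ⟨Q3, z', y, z, by simp⟩

open Classical in
theorem draw {P : List V} {I : Set V} {E : Set (Sym2 V)} (hN : Net P I E) :
    ∀ (D : V → Rc) (U : Set V) (EU : Set (Sym2 V)) (σ : List (V × ℝ × ℝ)) (L R B T : ℝ),
      σ.map Prod.fst = P → Slot D U σ L R B T → Valid D U EU → (∀ v ∈ I, v ∈ U → v ∈ P) →
      pe P ⊆ EU → ∃ (D' : V → Rc) (K : V → Pt), Ext D U EU D' K I E (Reg D σ L R B T) := by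
  induction hN with
  | edge a b hab =>
    intro D U EU σ L R B T hσ hS hV _ hpe
    match σ, hσ with
    | [p, q], hσ =>
      obtain ⟨p1, p2⟩ := p
      obtain ⟨q1, q2⟩ := q
      simp only [List.map_cons, List.map_nil, List.cons.injEq, and_true] at hσ
      obtain ⟨rfl, rfl⟩ := hσ
      have mp : ((p1, p2) : V × ℝ × ℝ) ∈ [(p1, p2), (q1, q2)] := by simp
      have mq : ((q1, q2) : V × ℝ × ℝ) ∈ [(p1, p2), (q1, q2)] := by simp
      have hp : p1 ∈ U := hS.mem _ mp
      have hq : q1 ∈ U := hS.mem _ mq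
      set K : V → Pt := fun v => if v = p1 then ⟨R, p2.1, p2.2⟩ else ⟨R, q2.1, q2.2⟩ with hK
      have kp : K p1 = ⟨R, p2.1, p2.2⟩ := by simp [hK]
      have kq : K q1 = ⟨R, q2.1, q2.2⟩ := by simp [hK, hab.symm]
      have rp : prt D K p1 = corr D R (p1, p2) := by unfold prt corr; rw [kp]
      have rq : prt D K q1 = corr D R (q1, q2) := by unfold prt corr; rw [kq]
      have hsub : ({p1, q1} : Set V) ⊆ U := by
        rintro v (rfl | rfl)
        · exact hp
        · exact hq
      have hpe' : s(p1, q1) ∈ EU := hpe (by simp [pe])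
      have hUe : U ∪ {p1, q1} = U := union_eq_self_of_subset_right hsub
      have hEe : EU ∪ {s(p1, q1)} = EU :=
        union_eq_self_of_subset_right (singleton_subset_iff.2 hpe')
      have hsrt : q2.2 ≤ p2.1 := by
        have := (List.pairwise_cons.1 hS.srt).1 (q1, q2) (by simp)
        exact this
      have hLR := hS.LR
      have hdj : Disjoint (corr D R (p1, p2)) (corr D R (q1, q2)) := by
        rw [Set.disjoint_left]
        intro w h1 h2
        have h3 : p2.1 < w.2 := h1.2.1
        have h4 : w.2 < q2.2 := h2.2.2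
        linarith
      refine ⟨D, K, ⟨fun v _ => rfl, ?_, ?_, ⟨?_, ?_, ?_, ?_, ?_, ?_⟩, ?_⟩⟩
      · rw [hUe, hEe]; exact hV
      · intro v hv hvU; exact absurd (hsub hv) hvU
      · rintro v (rfl | rfl)
        · rw [kp]; have := hS.rL _ mp; show _ < R; exact this.trans hLR
        · rw [kq]; have := hS.rL _ mq; show _ < R; exact this.trans hLR
      · rintro v (rfl | rfl)
        · rw [kp]; exact hS.lt _ mp
        · rw [kq]; exact hS.lt _ mq
      · rintro v (rfl | rfl)
        · rw [kp]; exact hS.lo _ mp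
        · rw [kq]; exact hS.lo _ mq
      · rintro v (rfl | rfl)
        · rw [kp]; exact hS.hi _ mp
        · rw [kq]; exact hS.hi _ mq
      · rw [hUe]
        rintro v (rfl | rfl) u hu huv
        · rw [rp]; exact hS.cor _ mp u hu huv
        · rw [rq]; exact hS.cor _ mq u hu huv
      · rintro v (rfl | rfl) w (rfl | rfl) hvw
        · exact absurd rfl hvw
        · rw [rp, rq]; exact hdj
        · rw [rp, rq]; exact hdj.symm
        · exact absurd rfl hvw
      · rintro v (rfl | rfl)
        · rw [rp]; intro w hw; exact Or.inr ⟨_, mp, hw⟩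
        · rw [rq]; intro w hw; exact Or.inr ⟨_, mq, hw⟩
  | ser P1 P2 m I1 I2 E1 E2 h1 h2 hI ih1 ih2 =>
    intro D U EU σ L R B T hσ hS hV hIU hpe
    obtain ⟨σ1, σ2', rfl, hσ1, hσ2'⟩ := List.map_eq_append_iff.1 hσ
    obtain ⟨p, σ2, rfl, hp1, hσ2⟩ := List.map_eq_cons_iff.1 hσ2'
    obtain ⟨m', am, bm⟩ := p
    simp only at hp1
    subst hp1
    have mp : ((m', am, bm) : V × ℝ × ℝ) ∈ σ1 ++ (m', am, bm) :: σ2 := by simp
    have m1 : ∀ q ∈ σ1, q ∈ σ1 ++ (m', am, bm) :: σ2 := fun q hq => by simp [hq]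
    have m2 : ∀ q ∈ σ2, q ∈ σ1 ++ (m', am, bm) :: σ2 := fun q hq => by simp [hq]
    have hmU : m' ∈ U := hS.mem _ mp
    have habm : am < bm := hS.lt _ mp
    have hlo : (D m').b ≤ am := hS.lo _ mp
    have hhi : bm ≤ (D m').t := hS.hi _ mp
    have hrL : (D m').r < L := hS.rL _ mp
    have hBm : B ≤ am := hS.Blo _ mp
    have hmT : bm ≤ T := hS.hiT _ mp
    have hcm : ∀ u ∈ U, u ≠ m' → Disjoint (D u).S (Bx (D m').r R am bm) :=
      fun u hu hne => hS.cor _ mp u hu hne
    obtain ⟨hs1, hs2, hs3⟩ := List.pairwise_append.1 hS.srt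
    obtain ⟨hs4, hs5⟩ := List.pairwise_cons.1 hs2
    set c : ℝ := (am + bm) / 2 with hc
    have hc1 : am < c := by rw [hc]; linarith
    have hc2 : c < bm := by rw [hc]; linarith
    clear_value c
    have e1 : ∀ q ∈ σ1 ++ [(m', c, bm)], q ∈ σ1 ∨ q = (m', c, bm) := by
      intro q hq; simpa using hq
    have e2 : ∀ q ∈ (m', am, c) :: σ2, q = (m', am, c) ∨ q ∈ σ2 := by
      intro q hq; simpa using hq
    have k1 : ∀ q ∈ σ1, bm ≤ q.2.1 := fun q hq => hs3 q hq (m', am, bm) (by simp)
    have k2 : ∀ q ∈ σ2, q.2.2 ≤ am := fun q hq => hs4 q hq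
    have S1 : Slot D U (σ1 ++ [(m', c, bm)]) L R c T := by
      refine ⟨hS.LR, ?_, ?_, ?_, ?_, ?_, ?_, ?_, ?_, ?_, ?_⟩
      · intro q hq; rcases e1 q hq with h | rfl
        · exact hS.mem q (m1 q h)
        · exact hmU
      · intro q hq; rcases e1 q hq with h | rfl
        · exact hS.lt q (m1 q h)
        · exact hc2
      · intro q hq; rcases e1 q hq with h | rfl
        · exact hS.lo q (m1 q h)
        · show (D m').b ≤ c; linarith
      · intro q hq; rcases e1 q hq with h | rfl
        · exact hS.hi q (m1 q h)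
        · exact hhi
      · intro q hq; rcases e1 q hq with h | rfl
        · exact hS.rL q (m1 q h)
        · exact hrL
      · intro q hq; rcases e1 q hq with h | rfl
        · have := k1 q h; linarith
        · exact le_rfl
      · intro q hq; rcases e1 q hq with h | rfl
        · exact hS.hiT q (m1 q h)
        · exact hmT
      · rw [List.pairwise_append]
        refine ⟨hs1, by simp, ?_⟩
        intro q hq q' hq'
        rw [List.mem_singleton] at hq'; rw [hq']; exact k1 q hq
      · intro q hq; rcases e1 q hq with h | rfl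
        · exact hS.cor q (m1 q h)
        · intro u hu hne
          exact (hcm u hu hne).mono_right (Bx_mono le_rfl le_rfl hc1.le le_rfl)
      · intro u hu
        exact (hS.str u hu).mono_right (Bx_mono le_rfl le_rfl (by linarith) le_rfl)
    have S2 : Slot D U ((m', am, c) :: σ2) L R B c := by
      refine ⟨hS.LR, ?_, ?_, ?_, ?_, ?_, ?_, ?_, ?_, ?_, ?_⟩
      · intro q hq; rcases e2 q hq with rfl | h
        · exact hmU
        · exact hS.mem q (m2 q h)
      · intro q hq; rcases e2 q hq with rfl | h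
        · exact hc1
        · exact hS.lt q (m2 q h)
      · intro q hq; rcases e2 q hq with rfl | h
        · exact hlo
        · exact hS.lo q (m2 q h)
      · intro q hq; rcases e2 q hq with rfl | h
        · show c ≤ (D m').t; linarith
        · exact hS.hi q (m2 q h)
      · intro q hq; rcases e2 q hq with rfl | h
        · exact hrL
        · exact hS.rL q (m2 q h)
      · intro q hq; rcases e2 q hq with rfl | h
        · exact hBm
        · exact hS.Blo q (m2 q h)
      · intro q hq; rcases e2 q hq with rfl | h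
        · exact le_rfl
        · have := k2 q h; linarith
      · rw [List.pairwise_cons]
        exact ⟨k2, hs5⟩
      · intro q hq; rcases e2 q hq with rfl | h
        · intro u hu hne
          exact (hcm u hu hne).mono_right (Bx_mono le_rfl le_rfl le_rfl hc2.le)
        · exact hS.cor q (m2 q h)
      · intro u hu
        exact (hS.str u hu).mono_right (Bx_mono le_rfl le_rfl le_rfl (by linarith))
    have A1 : Reg D (σ1 ++ [(m', c, bm)]) L R c T ⊆ Reg D (σ1 ++ (m', am, bm) :: σ2) L R B T := by
      rintro w (hw | ⟨q, hq, hw⟩)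
      · left; exact Bx_mono le_rfl le_rfl (by linarith) le_rfl hw
      · right
        rcases e1 q hq with h | rfl
        · exact ⟨q, m1 q h, hw⟩
        · exact ⟨_, mp, Bx_mono le_rfl le_rfl hc1.le le_rfl hw⟩
    have A2 : Reg D ((m', am, c) :: σ2) L R B c ⊆ Reg D (σ1 ++ (m', am, bm) :: σ2) L R B T := by
      rintro w (hw | ⟨q, hq, hw⟩)
      · left; exact Bx_mono le_rfl le_rfl le_rfl (by linarith) hw
      · right
        rcases e2 q hq with rfl | h
        · exact ⟨_, mp, Bx_mono le_rfl le_rfl le_rfl hc2.le hw⟩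
        · exact ⟨q, m2 q h, hw⟩
    have y1 : ∀ w ∈ Reg D (σ1 ++ [(m', c, bm)]) L R c T, c < w.2 := by
      rintro w (hw | ⟨q, hq, hw⟩)
      · exact hw.2.1
      · have h3 : q.2.1 < w.2 := hw.2.1
        rcases e1 q hq with h | rfl
        · have := k1 q h; linarith
        · exact h3
    have y2 : ∀ w ∈ Reg D ((m', am, c) :: σ2) L R B c, w.2 < c := by
      rintro w (hw | ⟨q, hq, hw⟩)
      · exact hw.2.2
      · have h3 : w.2 < q.2.2 := hw.2.2
        rcases e2 q hq with rfl | h
        · exact h3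
        · have := k2 q h; linarith
    have hdj : Disjoint (Reg D (σ1 ++ [(m', c, bm)]) L R c T) (Reg D ((m', am, c) :: σ2) L R B c) := by
      rw [Set.disjoint_left]
      intro w h1 h2
      have := y1 w h1
      have := y2 w h2
      linarith
    have hmemP : ∀ v, v ∈ P1 ++ m' :: P2 ↔ v ∈ P1 ∨ v = m' ∨ v ∈ P2 := by
      intro v; simp
    obtain ⟨D1, K1, hE1⟩ := ih1 D U EU (σ1 ++ [(m', c, bm)]) L R c T (by simp [hσ1]) S1 hV (by
        intro v hv hvU
        have h3 := hIU v (Or.inl hv) hvU
        rw [hmemP] at h3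
        rcases h3 with h3 | h3 | h3
        · simp [h3]
        · simp [h3]
        · have := hI v hv (h2.sub v (by simp [h3]))
          simp [this]) (by
        refine subset_trans ?_ hpe
        rw [pe_append P1 m' P2]; exact subset_union_left)
    have S2' : Slot D1 (U ∪ I1) ((m', am, c) :: σ2) L R B c := by
      apply S2.mono subset_union_left hE1.agr
      intro v hv hvU
      have hvI : v ∈ I1 := hv.resolve_left hvU
      exact hdj.mono_left (hE1.ins v hvI hvU)
    have hreg2 : Reg D1 ((m', am, c) :: σ2) L R B c = Reg D ((m', am, c) :: σ2) L R B c :=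
      Reg_congr (fun q hq => hE1.agr _ (S2.mem q hq))
    obtain ⟨D2, K2, hE2⟩ := ih2 D1 (U ∪ I1) (EU ∪ E1) ((m', am, c) :: σ2) L R B c (by simp [hσ2]) S2'
      hE1.val (by
        intro v hv hvU
        rcases hvU with hvU | hvI
        · have h3 := hIU v (Or.inr hv) hvU
          rw [hmemP] at h3
          rcases h3 with h3 | h3 | h3
          · have := hI v (h1.sub v (by simp [h3])) hv
            simp [this]
          · simp [h3]
          · simp [h3]
        · have := hI v hvI hv
          simp [this]) (by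
        refine subset_trans ?_ (hpe.trans subset_union_left)
        rw [pe_append]; exact subset_union_right)
    rw [hreg2] at hE2
    exact ⟨D2, _, hE1.merge hE2 hdj A1 A2⟩
  | par s t P Q I1 I2 E1 E2 h1 h2 hI hQ ih1 ih2 =>
    intro D U EU σ L R B T hσ hS hV hIU hpe
    obtain ⟨p, σ', rfl, hp, hσ'⟩ := List.map_eq_cons_iff.1 hσ
    obtain ⟨mid, σ'', rfl, hmid, hσ''⟩ := List.map_eq_append_iff.1 hσ'
    obtain ⟨q, σ''', rfl, hq, hσ'''⟩ := List.map_eq_cons_iff.1 hσ''
    have hnil : σ''' = [] := List.map_eq_nil_iff.1 hσ'''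
    subst hnil
    obtain ⟨s', a0, b0⟩ := p
    obtain ⟨t', a1, b1⟩ := q
    simp only at hp hq
    subst hp hq
    obtain ⟨ds, z', y, z, rfl⟩ := split3 Q hQ
    have hQnd : (s' :: ((ds ++ [z', y, z]) ++ [t'])).Nodup := h2.nodup
    have hQnd1 : (ds ++ [z', y, z]).Nodup := by
      have h3 := (List.nodup_cons.1 hQnd).2
      exact (List.nodup_append.1 h3).1
    have hsQ : s' ∉ ds ++ [z', y, z] := by
      intro h
      exact (List.nodup_cons.1 hQnd).1 (List.mem_append.2 (Or.inl h))
    have htQ : t' ∉ ds ++ [z', y, z] := by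
      intro h
      have h3 := (List.nodup_cons.1 hQnd).2
      exact (List.nodup_append.1 h3).2.2 t' h t' (by simp) rfl
    have hQI2 : ∀ v ∈ ds ++ [z', y, z], v ∈ I2 := by
      intro v hv
      exact h2.sub v (List.mem_cons_of_mem _ (List.mem_append.2 (Or.inl hv)))
    have hQnew : ∀ v ∈ ds ++ [z', y, z], v ∉ U := by
      intro v hv hvU
      have h3 := hIU v (Or.inr (hQI2 v hv)) hvU
      rcases hI v (h1.sub v h3) (hQI2 v hv) with rfl | rfl
      · exact hsQ hv
      · exact htQ hv
    obtain ⟨D1, σ1, σ2, R1, B1, T1, L2, hagr, hval, hm1, hm2, hs1, hs2, hdj, hr1, hr2, hins⟩ :=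
      ear D U EU s' t' a0 b0 a1 b1 mid ds z' y z L R B T hS hV hQnd1 hQnew
    rw [hmid] at hm1
    have hsU : s' ∈ U := hS.mem (s', a0, b0) (by simp)
    have htU : t' ∈ U := hS.mem (t', a1, b1) (by simp)
    obtain ⟨D2, K2, hE1⟩ := ih1 D1 _ _ σ1 L R1 B1 T1 hm1 hs1 hval (by
        intro v hv hvU
        rcases hvU with hvU | hvQ
        · exact hIU v (Or.inl hv) hvU
        · rcases hI v hv (hQI2 v hvQ) with rfl | rfl
          · exact absurd hvQ hsQ
          · exact absurd hvQ htQ) (hpe.trans subset_union_left)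
    have hs2' : Slot D2 ((U ∪ {v | v ∈ ds ++ [z', y, z]}) ∪ I1) σ2 L2 R B T := by
      apply hs2.mono subset_union_left hE1.agr
      intro v hv hvU
      have hvI : v ∈ I1 := hv.resolve_left hvU
      exact hdj.mono_left (hE1.ins v hvI hvU)
    have hreg2 : Reg D2 σ2 L2 R B T = Reg D1 σ2 L2 R B T :=
      Reg_congr (fun q hq => hE1.agr _ (hs2.mem q hq))
    obtain ⟨D3, K3, hE2⟩ := ih2 D2 _ _ σ2 L2 R B T hm2 hs2' hE1.val (by
        intro v hv hvU
        rcases hvU with (hvU | hvQ) | hvI
        · have h3 := hIU v (Or.inr hv) hvU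
          rcases hI v (h1.sub v h3) hv with rfl | rfl
          · simp
          · simp
        · exact List.mem_cons_of_mem _ (List.mem_append.2 (Or.inl hvQ))
        · rcases hI v hvI hv with rfl | rfl
          · simp
          · simp) (by
        intro e he
        exact Or.inl (Or.inr he))
    rw [hreg2] at hE2
    have hM := hE1.merge hE2 hdj hr1 hr2
    refine ⟨D3, fun v => if v ∈ I1 then K2 v else K3 v, ⟨?_, ?_, ?_, ?_, ?_⟩⟩
    · intro v hv
      rw [hM.agr v (Or.inl hv), hagr v hv]
    · have h3 := hM.val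
      have e1 : U ∪ {v | v ∈ ds ++ [z', y, z]} ∪ (I1 ∪ I2) = U ∪ (I1 ∪ I2) := by
        ext v
        constructor
        · rintro ((h | h) | h)
          · exact Or.inl h
          · exact Or.inr (Or.inr (hQI2 v h))
          · exact Or.inr h
        · rintro (h | h)
          · exact Or.inl (Or.inl h)
          · exact Or.inr h
      have e2 : EU ∪ pe (s' :: ((ds ++ [z', y, z]) ++ [t'])) ∪ (E1 ∪ E2) = EU ∪ (E1 ∪ E2) := by
        ext e
        constructor
        · rintro ((h | h) | h)
          · exact Or.inl h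
          · exact Or.inr (Or.inr (h2.pe_sub h))
          · exact Or.inr h
        · rintro (h | h)
          · exact Or.inl (Or.inl h)
          · exact Or.inr h
      rwa [e1, e2] at h3
    · intro v hv hvU
      by_cases hvQ : v ∈ ds ++ [z', y, z]
      · rw [hM.agr v (Or.inr hvQ)]
        exact hins v hvQ
      · exact hM.ins v hv (fun h => h.elim hvU hvQ)
    · have h3 := hM.prts
      have e1 : U ∪ {v | v ∈ ds ++ [z', y, z]} ∪ (I1 ∪ I2) = U ∪ (I1 ∪ I2) := by
        ext v
        constructor
        · rintro ((h | h) | h)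
          · exact Or.inl h
          · exact Or.inr (Or.inr (hQI2 v h))
          · exact Or.inr h
        · rintro (h | h)
          · exact Or.inl (Or.inl h)
          · exact Or.inr h
      rwa [e1] at h3
    · exact hM.pin

end Pool.Agent.R299.CBU
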